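import Pool.Agent.Helper67.Coclass.Chain

set_option autoImplicit false

noncomputable section

namespace Pool.Agent.Helper67.Coclass

open Polynomial

variable {p : ℕ} [hp : Fact p.Prime] {M : Type*} [AddCommGroup M] [Module ℤ_[p] M]

theorem isUnit_of_not_dvd {a : ℤ_[p]} (h : ¬ (p : ℤ_[p]) ∣ a) : IsUnit a := by
  by_contra hcon
  apply h
  rw [← Ideal.mem_span_singleton, ← PadicInt.maximalIdeal_eq_span_p,
    IsLocalRing.mem_maximalIdeal]
  exact hcon

theorem degree_lemma [Module.Finite ℤ_[p] M] (hp2 : p ≠ 2) (T : Module.End ℤ_[p] M) {v : M}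
    (hv : v ≠ 0) {n : ℕ} (hT : (T ^ p ^ n) v = v) {f : ℤ_[p][X]} (hf : aeval T f v = 0) :
    (p : ℤ_[p]) ∣ f.eval 1 := by
  by_contra hnd
  obtain ⟨s, hs⟩ := isUnit_of_not_dvd hnd
  obtain ⟨r, hr⟩ := Polynomial.X_sub_C_dvd_sub_C_eval (a := (1 : ℤ_[p])) (p := f)
  set s' : ℤ_[p] := ((s⁻¹ : ℤ_[p]ˣ) : ℤ_[p]) with hs'
  have hss' : s' * f.eval 1 = 1 := by rw [← hs, hs', Units.inv_mul]
  let A : ℤ_[p][X] := (X - C 1) * (-(C s' * r))
  have hA : aeval T A v = v := by
    have h1 : A = C s' * C (f.eval 1) - C s' * f := by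
      have : f = C (f.eval 1) + (X - C 1) * r := by rw [← hr]; ring
      simp only [A]
      conv_rhs => rw [this]
      rw [eval_add, eval_C, eval_mul, eval_sub, eval_X, eval_C, sub_self, zero_mul, add_zero]
      ring
    rw [h1, ← C_mul, hss', C_1, map_sub, LinearMap.sub_apply, map_one, Module.End.one_apply,
      map_mul, Module.End.mul_apply, hf, map_zero, sub_zero]
  have hAk : ∀ k, aeval T (A ^ k) v = v := by
    intro k
    induction k with
    | zero => simp
    | succ k ih => rw [pow_succ, map_mul, Module.End.mul_apply, hA, ih]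
  obtain ⟨w, hw⟩ := exists_add_pow_prime_pow_eq hp.out (X : ℤ_[p][X]) (-1) n
  have hodd : Odd p := hp.out.odd_of_ne_two hp2
  rw [(hodd.pow).neg_one_pow] at hw
  let q : ℤ_[p][X] := (-(C s' * r)) ^ p ^ n
  have hAp : A ^ p ^ n = q * (X ^ p ^ n - 1) + C (p : ℤ_[p]) * (-(X * w) * q) := by
    have hq : A ^ p ^ n = (X + -1) ^ p ^ n * q := by
      simp only [A, q]
      rw [mul_pow, C_1, sub_eq_add_neg X 1]
    rw [hq, hw, map_natCast]
    ring
  have hkey : v = (p : ℤ_[p]) • aeval T (-(X * w) * q) v := by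
    have h1 := hAk (p ^ n)
    rw [hAp, map_add, LinearMap.add_apply, map_mul, Module.End.mul_apply] at h1
    have h2 : aeval T (X ^ p ^ n - 1 : ℤ_[p][X]) v = 0 := by
      rw [map_sub, map_pow, aeval_X, map_one, LinearMap.sub_apply, hT, Module.End.one_apply,
        sub_self]
    rw [h2, map_zero, zero_add, map_mul, aeval_C, Module.End.mul_apply,
      Module.algebraMap_end_apply] at h1
    exact h1.symm
  generalize -(X * w) * q = w1 at hkey
  let W : Submodule ℤ_[p] M :=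
    LinearMap.range ((LinearMap.applyₗ v) ∘ₗ (aeval (R := ℤ_[p]) T).toLinearMap)
  have hW : ∀ g : ℤ_[p][X], aeval T g v ∈ W := fun g => ⟨g, rfl⟩
  have hWb : W ≤ ⊥ := by
    apply nakayama
    rintro _ ⟨g, rfl⟩
    refine ⟨0, Submodule.zero_mem _, aeval T (g * w1) v, hW _, ?_⟩
    rw [zero_add]
    change aeval T g v = _
    conv_lhs => rw [hkey]
    rw [map_smul, map_mul, Module.End.mul_apply]
  have := hWb (hW 1)
  rw [map_one, Module.End.one_apply, Submodule.mem_bot] at this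
  exact hv this

theorem taylor_pow (n : ℕ) : ∃ r : ℤ_[p][X],
    (X : ℤ_[p][X]) ^ n = 1 + C (n : ℤ_[p]) * (X - 1) + (X - 1) ^ 2 * r := by
  induction n with
  | zero => exact ⟨0, by simp⟩
  | succ n ih =>
    obtain ⟨r, hr⟩ := ih
    refine ⟨C (n : ℤ_[p]) + X * r, ?_⟩
    rw [pow_succ', hr, Nat.cast_succ, C_add, C_1]
    ring

theorem two_congr [Module.Finite ℤ_[p] M] (hp2 : p ≠ 2)
    (htf : ∀ (c : ℤ_[p]) (x : M), c • x = 0 → c = 0 ∨ x = 0) (T : Module.End ℤ_[p] M) {v : M}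
    (hv : v ≠ 0) {b : ℕ} (hb : 1 ≤ b)
    (hsum : ∑ j ∈ Finset.range p, (T ^ (j * p ^ (b - 1))) v = 0) {ι : Type*} (s : Finset ι)
    (c : ι → ℤ_[p]) (e : ι → ℕ) (h : ∑ i ∈ s, c i • (T ^ e i) v = 0) :
    (p : ℤ_[p]) ∣ ∑ i ∈ s, c i ∧ (p : ℤ_[p]) ∣ ∑ i ∈ s, c i * (e i : ℤ_[p]) := by
  have hp0 : (p : ℤ_[p]) ≠ 0 := by exact_mod_cast hp.out.ne_zero
  -- `T ^ p ^ b` fixes `v`
  have hTb : (T ^ p ^ b) v = v := by
    have h1 := mul_geom_sum (T ^ p ^ (b - 1)) p
    have h2 := congrArg (fun g => g v) h1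
    simp only [Module.End.mul_apply, LinearMap.sub_apply, Module.End.one_apply,
      LinearMap.sum_apply] at h2
    have h3 : ∑ j ∈ Finset.range p, ((T ^ p ^ (b - 1)) ^ j) v = 0 := by
      rw [← hsum]
      apply Finset.sum_congr rfl
      intro j _
      rw [← pow_mul, mul_comm]
    rw [h3, map_zero, sub_zero, ← pow_mul, ← pow_succ, Nat.sub_add_cancel hb] at h2
    exact (sub_eq_zero.1 h2.symm)
  let v1 : M := T v - v
  have hv1 : v1 ≠ 0 := by
    intro h0
    have h1 : T v = v := sub_eq_zero.1 h0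
    have h2 : ∀ j, (T ^ j) v = v := by
      intro j
      induction j with
      | zero => simp
      | succ j ih => rw [pow_succ, Module.End.mul_apply, h1, ih]
    rw [Finset.sum_congr rfl fun j _ => h2 (j * p ^ (b - 1)), Finset.sum_const, Finset.card_range,
      ← Nat.cast_smul_eq_nsmul ℤ_[p]] at hsum
    rcases htf _ _ hsum with h | h
    · exact hp0 h
    · exact hv h
  have hTv1 : (T ^ p ^ b) v1 = v1 := by
    simp only [v1]
    rw [map_sub, hTb, ← Module.End.mul_apply, ← pow_succ, pow_succ', Module.End.mul_apply, hTb]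
  choose r hr using taylor_pow (p := p)
  -- the polynomial `F`
  let S0 := ∑ i ∈ s, c i
  let S1 := ∑ i ∈ s, c i * (e i : ℤ_[p])
  let G : ℤ_[p][X] := ∑ i ∈ s, C (c i) * r (e i)
  let F : ℤ_[p][X] := ∑ i ∈ s, C (c i) * X ^ e i
  have hF : F = C S0 + C S1 * (X - 1) + (X - 1) ^ 2 * G := by
    simp only [F, S0, S1, G, map_sum, Finset.sum_mul, Finset.mul_sum, ← Finset.sum_add_distrib]
    apply Finset.sum_congr rfl
    intro i _
    rw [hr (e i), C_mul]
    ring
  have hFv : aeval T F v = 0 := by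
    rw [← h]
    simp only [F, map_sum, LinearMap.sum_apply]
    apply Finset.sum_congr rfl
    intro i _
    rw [map_mul, aeval_C, map_pow, aeval_X, Module.End.mul_apply, Module.algebraMap_end_apply]
  have hF1 : F.eval 1 = S0 := by rw [hF]; simp
  have hS0 : (p : ℤ_[p]) ∣ S0 := by
    rw [← hF1]
    exact degree_lemma hp2 T hv hTb hFv
  refine ⟨hS0, ?_⟩
  obtain ⟨a, ha⟩ := hS0
  -- the polynomial `Φ`
  have hodd : Odd p := hp.out.odd_of_ne_two hp2
  obtain ⟨c0, hc0⟩ := hodd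
  let cc : ℤ_[p] := (c0 * p ^ (b - 1) : ℕ)
  let R : ℤ_[p][X] := ∑ j ∈ Finset.range p, r (j * p ^ (b - 1))
  let Φ : ℤ_[p][X] := ∑ j ∈ Finset.range p, X ^ (j * p ^ (b - 1))
  have hΦ : Φ = C (p : ℤ_[p]) * (1 + C cc * (X - 1)) + (X - 1) ^ 2 * R := by
    have h1 : Φ = ∑ j ∈ Finset.range p, (1 + C ((j * p ^ (b - 1) : ℕ) : ℤ_[p]) * (X - 1) +
        (X - 1) ^ 2 * r (j * p ^ (b - 1))) := Finset.sum_congr rfl fun j _ => hr _
    have h2 : ∑ j ∈ Finset.range p, j * p ^ (b - 1) = p * (c0 * p ^ (b - 1)) := by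
      rw [← Finset.sum_mul, ← mul_assoc]
      congr 1
      have h3 := Finset.sum_range_id_mul_two p
      have h4 : p - 1 = c0 * 2 := by omega
      rw [h4, ← mul_assoc] at h3
      exact Nat.eq_of_mul_eq_mul_right two_pos h3
    rw [h1, Finset.sum_add_distrib, Finset.sum_add_distrib, ← Finset.mul_sum, ← Finset.sum_mul,
      ← map_sum, ← Nat.cast_sum, h2]
    simp only [R, cc]
    rw [Finset.sum_const, Finset.card_range, nsmul_eq_mul, Nat.cast_mul, C_mul, mul_one,
      map_natCast C p]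
    ring
  have hΦv : aeval T Φ v = 0 := by
    rw [← hsum]
    simp only [Φ, map_sum, LinearMap.sum_apply, map_pow, aeval_X]
  let U : ℤ_[p][X] := C (p : ℤ_[p]) * C cc ^ 2 - R * (1 - C cc * (X - 1))
  have hpU : C (p : ℤ_[p]) = (1 - C cc * (X - 1)) * Φ + U * (X - 1) ^ 2 := by
    rw [hΦ]
    simp only [U]
    ring
  let f1 : ℤ_[p][X] := C S1 + (X - 1) * (C a * U + G)
  have hf1 : aeval T f1 v1 = 0 := by
    have h1 : f1 * (X - 1) = F - C a * ((1 - C cc * (X - 1)) * Φ) := by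
      have h2 : C S0 = C a * ((1 - C cc * (X - 1)) * Φ + U * (X - 1) ^ 2) := by
        rw [← hpU, ← C_mul, ha, mul_comm]
      rw [hF, h2]
      simp only [f1]
      ring
    have h3 : v1 = aeval T (X - 1 : ℤ_[p][X]) v := by
      rw [map_sub, aeval_X, map_one]
      rfl
    rw [h3, ← Module.End.mul_apply, ← map_mul, h1, map_sub, LinearMap.sub_apply, hFv, map_mul,
      map_mul, Module.End.mul_apply, Module.End.mul_apply, hΦv, map_zero, map_zero, sub_zero]
  have h1 := degree_lemma hp2 T hv1 hTv1 hf1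
  have h2 : f1.eval 1 = S1 := by simp [f1]
  rwa [h2] at h1

end Pool.Agent.Helper67.Coclass
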