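import Mathlib

set_option autoImplicit false

noncomputable section

namespace Pool.Agent.Helper67.Coclass

variable {p : ℕ} [hp : Fact p.Prime] {P : Type*} [Group P] {M : Type*} [AddCommGroup M]
  [Module ℤ_[p] M]

/-- Stability of a submodule. -/
def Stable (ρ : P →* Module.End ℤ_[p] M) (L : Submodule ℤ_[p] M) : Prop :=
  ∀ g, ∀ x ∈ L, ρ g x ∈ L

/-- The submodule `[L, P]`. -/
def comm (ρ : P →* Module.End ℤ_[p] M) (L : Submodule ℤ_[p] M) : Submodule ℤ_[p] M :=
  Submodule.span ℤ_[p] {y | ∃ g, ∃ x ∈ L, y = ρ g x - x}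

/-- `L` contains `p ^ n M` for some `n`. -/
def FinIdx (L : Submodule ℤ_[p] M) : Prop := ∃ n : ℕ, ∀ x : M, (p : ℤ_[p]) ^ n • x ∈ L

/-- Uniseriality in terms of indices. -/
def IsU (ρ : P →* Module.End ℤ_[p] M) : Prop :=
  ∀ L, Stable ρ L → FinIdx L → (comm ρ L).toAddSubgroup.relIndex L.toAddSubgroup = p

theorem p_smul_mem_of_pow {L : Submodule ℤ_[p] M} {n m : ℕ} (h : n ≤ m) {x : M}
    (hx : (p : ℤ_[p]) ^ n • x ∈ L) : (p : ℤ_[p]) ^ m • x ∈ L := by
  obtain ⟨k, rfl⟩ := Nat.exists_eq_add_of_le h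
  rw [add_comm, pow_add, mul_smul]
  exact L.smul_mem _ hx

theorem FinIdx.mono {L L' : Submodule ℤ_[p] M} (h : FinIdx L) (hle : L ≤ L') : FinIdx L' := by
  obtain ⟨n, hn⟩ := h
  exact ⟨n, fun x => hle (hn x)⟩

theorem finIdx_top : FinIdx (⊤ : Submodule ℤ_[p] M) := ⟨0, fun _ => trivial⟩

theorem finite_of_finIdx [Module.Finite ℤ_[p] M] {L : Submodule ℤ_[p] M} (h : FinIdx L) :
    Finite (M ⧸ L) := by
  obtain ⟨n, hn⟩ := h
  obtain ⟨k, f, hf⟩ := Module.Finite.exists_fin' ℤ_[p] M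
  have : NeZero (p ^ n) := ⟨pow_ne_zero _ hp.out.ne_zero⟩
  let g : (Fin k → ZMod (p ^ n)) → M ⧸ L := fun c => L.mkQ (f (fun i => ((c i).val : ℤ_[p])))
  refine Finite.of_surjective g ?_
  intro x
  obtain ⟨m, rfl⟩ := L.mkQ_surjective x
  obtain ⟨a, rfl⟩ := hf m
  refine ⟨fun i => PadicInt.toZModPow n (a i), ?_⟩
  have h1 : ∀ i, ∃ c : ℤ_[p], a i = ((PadicInt.toZModPow n (a i)).val : ℤ_[p]) +
      (p : ℤ_[p]) ^ n * c := by
    intro i
    have : a i - ((PadicInt.toZModPow n (a i)).val : ℤ_[p]) ∈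
        RingHom.ker (PadicInt.toZModPow (p := p) n) := by
      rw [RingHom.mem_ker, map_sub, map_natCast, ZMod.natCast_zmod_val, sub_self]
    rw [PadicInt.ker_toZModPow, Ideal.mem_span_singleton] at this
    obtain ⟨c, hc⟩ := this
    exact ⟨c, by linear_combination hc⟩
  choose c hc using h1
  have h2 : a = (fun i => ((PadicInt.toZModPow n (a i)).val : ℤ_[p])) +
      ((p : ℤ_[p]) ^ n) • c := by
    funext i
    simpa using hc i
  have h3 : f a = f (fun i => ((PadicInt.toZModPow n (a i)).val : ℤ_[p])) +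
      ((p : ℤ_[p]) ^ n) • f c := by
    conv_lhs => rw [h2]
    rw [map_add, map_smul]
  change L.mkQ _ = L.mkQ _
  rw [h3, map_add]
  have : L.mkQ ((p : ℤ_[p]) ^ n • f c) = 0 := by
    rw [Submodule.mkQ_apply, Submodule.Quotient.mk_eq_zero]
    exact hn _
  rw [this, add_zero]

theorem finIdx_of_finite {L : Submodule ℤ_[p] M} (h : Finite (M ⧸ L)) : FinIdx L := by
  have hN : ((Nat.card (M ⧸ L) : ℕ) : ℤ_[p]) ≠ 0 := by
    exact_mod_cast (Nat.card_pos (α := M ⧸ L)).ne'
  have hspec := PadicInt.unitCoeff_spec hN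
  refine ⟨PadicInt.valuation ((Nat.card (M ⧸ L) : ℕ) : ℤ_[p]), fun x => ?_⟩
  have h1 : (Nat.card (M ⧸ L)) • (L.mkQ x) = 0 := card_nsmul_eq_zero'
  have h2 : ((Nat.card (M ⧸ L) : ℕ) : ℤ_[p]) • x ∈ L := by
    rw [← Submodule.Quotient.mk_eq_zero]
    rw [← map_nsmul, ← Nat.cast_smul_eq_nsmul ℤ_[p]] at h1
    exact h1
  rw [hspec, mul_smul] at h2
  have h3 := L.smul_mem ((PadicInt.unitCoeff hN)⁻¹ : ℤ_[p]ˣ).val h2
  rwa [smul_smul, Units.inv_mul, one_smul] at h3

/-- Nakayama. -/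
theorem nakayama [Module.Finite ℤ_[p] M] {N N' : Submodule ℤ_[p] M}
    (h : ∀ x ∈ N, ∃ y ∈ N', ∃ z ∈ N, x = y + (p : ℤ_[p]) • z) : N ≤ N' := by
  apply Submodule.le_of_le_smul_of_le_jacobson_bot (I := Ideal.span {(p : ℤ_[p])})
    (IsNoetherian.noetherian N)
  · rw [IsLocalRing.jacobson_eq_maximalIdeal _ bot_ne_top, PadicInt.maximalIdeal_eq_span_p]
  · intro x hx
    obtain ⟨y, hy, z, hz, rfl⟩ := h x hx
    refine Submodule.add_mem_sup hy ?_
    exact Submodule.smul_mem_smul (Ideal.mem_span_singleton_self _) hz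

theorem Stable.sup {ρ : P →* Module.End ℤ_[p] M} {A B : Submodule ℤ_[p] M} (hA : Stable ρ A)
    (hB : Stable ρ B) : Stable ρ (A ⊔ B) := by
  intro g x hx
  obtain ⟨a, ha, b, hb, rfl⟩ := Submodule.mem_sup.1 hx
  rw [map_add]
  exact Submodule.add_mem_sup (hA g a ha) (hB g b hb)

theorem stable_top (ρ : P →* Module.End ℤ_[p] M) : Stable ρ ⊤ := fun _ _ _ => trivial

theorem mem_comm {ρ : P →* Module.End ℤ_[p] M} {L : Submodule ℤ_[p] M} (g : P) {x : M}
    (hx : x ∈ L) : ρ g x - x ∈ comm ρ L :=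
  Submodule.subset_span ⟨g, x, hx, rfl⟩

theorem comm_le {ρ : P →* Module.End ℤ_[p] M} {L N : Submodule ℤ_[p] M}
    (h : ∀ g, ∀ x ∈ L, ρ g x - x ∈ N) : comm ρ L ≤ N := by
  apply Submodule.span_le.2
  rintro _ ⟨g, x, hx, rfl⟩
  exact h g x hx

theorem comm_le_self {ρ : P →* Module.End ℤ_[p] M} {L : Submodule ℤ_[p] M} (h : Stable ρ L) :
    comm ρ L ≤ L := comm_le fun g x hx => L.sub_mem (h g x hx) hx

theorem stable_comm {ρ : P →* Module.End ℤ_[p] M} {L : Submodule ℤ_[p] M} (h : Stable ρ L) :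
    Stable ρ (comm ρ L) := by
  intro g x hx
  have h1 := comm_le_self h hx
  have h2 := mem_comm (ρ := ρ) g h1
  have := (comm ρ L).add_mem h2 hx
  simpa using this

/-- `p ^ n • M` as a submodule. -/
def pM (p : ℕ) [Fact p.Prime] (M : Type*) [AddCommGroup M] [Module ℤ_[p] M] (n : ℕ) :
    Submodule ℤ_[p] M :=
  (LinearMap.lsmul ℤ_[p] M ((p : ℤ_[p]) ^ n)).range

theorem mem_pM {n : ℕ} {x : M} : x ∈ pM p M n ↔ ∃ y : M, (p : ℤ_[p]) ^ n • y = x := by
  simp [pM]

theorem stable_pM (ρ : P →* Module.End ℤ_[p] M) (n : ℕ) : Stable ρ (pM p M n) := by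
  intro g x hx
  obtain ⟨y, rfl⟩ := mem_pM.1 hx
  exact mem_pM.2 ⟨ρ g y, by rw [map_smul]⟩

theorem finIdx_pM (n : ℕ) : FinIdx (pM p M n) := ⟨n, fun x => mem_pM.2 ⟨x, rfl⟩⟩

/-- fixed vectors in quotients -/
theorem exists_fixed [Module.Finite ℤ_[p] M] [Finite P] (hP : IsPGroup p P)
    {ρ : P →* Module.End ℤ_[p] M}
    {L1 L : Submodule ℤ_[p] M} (h1 : Stable ρ L1) (h : Stable ρ L) (hlt : L1 < L)
    (hn : ∃ n : ℕ, ∀ x ∈ L, (p : ℤ_[p]) ^ n • x ∈ L1) :
    ∃ x ∈ L, x ∉ L1 ∧ ∀ g, ρ g x - x ∈ L1 := by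
  classical
  obtain ⟨n, hn⟩ := hn
  -- the submodule `L1` of `L`
  let K : Submodule ℤ_[p] L := L1.comap L.subtype
  have hfi : Module.Finite ℤ_[p] L := inferInstance
  have hKf : FinIdx K := ⟨n, fun x => hn x x.2⟩
  have hfin : Finite (L ⧸ K) := finite_of_finIdx hKf
  have hst : ∀ (g : P), ∀ x ∈ K, (⟨ρ g x, h g _ x.2⟩ : L) ∈ K := fun g x hx => h1 g _ hx
  let act : P → L →ₗ[ℤ_[p]] L := fun g => (ρ g).restrict (h g)
  have hact : ∀ (g : P) (x : L), (act g x : M) = ρ g x := fun g x => rfl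
  have hK : ∀ g, K ≤ K.comap (act g) := fun g x hx => h1 g _ hx
  let _ : MulAction P (L ⧸ K) :=
    { smul := fun g q => K.mapQ K (act g) (hK g) q
      one_smul := by
        intro q
        obtain ⟨x, rfl⟩ := K.mkQ_surjective q
        change K.mapQ K (act 1) (hK 1) (K.mkQ x) = K.mkQ x
        rw [Submodule.mkQ_apply, Submodule.mapQ_apply]
        congr 1
        apply Subtype.ext
        rw [hact, map_one]
        rfl
      mul_smul := by
        intro g g' q
        obtain ⟨x, rfl⟩ := K.mkQ_surjective q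
        change K.mapQ K (act (g * g')) (hK _) (K.mkQ x) =
          K.mapQ K (act g) (hK g) (K.mapQ K (act g') (hK g') (K.mkQ x))
        rw [Submodule.mkQ_apply, Submodule.mapQ_apply, Submodule.mapQ_apply,
          Submodule.mapQ_apply]
        congr 1
        apply Subtype.ext
        rw [hact, hact, hact, map_mul]
        rfl }
  have hsmul : ∀ (g : P) (x : L), g • (K.mkQ x) = K.mkQ (act g x) := fun g x => rfl
  obtain ⟨x0, hx0, hx0'⟩ := Set.exists_of_ssubset hlt
  have hne : K.mkQ ⟨x0, hx0⟩ ≠ 0 := by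
    rw [Submodule.mkQ_apply, Ne, Submodule.Quotient.mk_eq_zero]
    exact hx0'
  have hdvd : p ∣ Nat.card (L ⧸ K) := by
    have ho : addOrderOf (K.mkQ ⟨x0, hx0⟩) ∣ p ^ n := by
      rw [addOrderOf_dvd_iff_nsmul_eq_zero, ← map_nsmul, Submodule.mkQ_apply,
        Submodule.Quotient.mk_eq_zero]
      change ((p ^ n) • (⟨x0, hx0⟩ : L) : L) ∈ L1.comap L.subtype
      rw [Submodule.mem_comap, map_nsmul, ← Nat.cast_smul_eq_nsmul ℤ_[p], Nat.cast_pow]
      exact hn x0 hx0
    obtain ⟨k, -, hk⟩ := (Nat.dvd_prime_pow hp.out).1 ho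
    have hk0 : k ≠ 0 := by
      rintro rfl
      rw [pow_zero, AddMonoid.addOrderOf_eq_one_iff] at hk
      exact hne hk
    calc p ∣ p ^ k := dvd_pow_self p hk0
      _ = addOrderOf (K.mkQ ⟨x0, hx0⟩) := hk.symm
      _ ∣ _ := addOrderOf_dvd_natCard _
  have h0 : (0 : L ⧸ K) ∈ MulAction.fixedPoints P (L ⧸ K) := by
    intro g
    change K.mapQ K (act g) (hK g) 0 = 0
    exact map_zero _
  obtain ⟨b, hb, hb0⟩ := hP.exists_fixed_point_of_prime_dvd_card_of_fixed_point _ hdvd h0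
  obtain ⟨x, rfl⟩ := K.mkQ_surjective b
  refine ⟨x, x.2, ?_, ?_⟩
  · intro hx
    apply hb0
    symm
    rw [Submodule.mkQ_apply, Submodule.Quotient.mk_eq_zero]
    exact hx
  · intro g
    have := hb g
    rw [hsmul, Submodule.mkQ_apply, Submodule.mkQ_apply, Submodule.Quotient.eq] at this
    exact this

/-- A proper stable submodule does not generate together with `[L, P]`. -/
theorem not_le_sup_comm [Module.Finite ℤ_[p] M] [Finite P] (hP : IsPGroup p P)
    {ρ : P →* Module.End ℤ_[p] M} {L1 L : Submodule ℤ_[p] M} (h1 : Stable ρ L1)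
    (h : Stable ρ L) (hlt : L1 < L) : ¬ L ≤ L1 ⊔ comm ρ L := by
  intro hle
  -- the family of proper stable submodules containing `L1` and `p L`
  let S : Set (Submodule ℤ_[p] M) := {N | Stable ρ N ∧ L1 ≤ N ∧ N < L ∧
    ∀ x ∈ L, (p : ℤ_[p]) • x ∈ N}
  have hS : S.Nonempty := by
    refine ⟨L1 ⊔ L.map (LinearMap.lsmul ℤ_[p] M (p : ℤ_[p])), ?_, le_sup_left, ?_, ?_⟩
    · apply h1.sup
      rintro g _ ⟨x, hx, rfl⟩
      exact ⟨ρ g x, h g x hx, by simp⟩
    · refine lt_of_le_of_ne (sup_le hlt.le ?_) ?_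
      · rintro _ ⟨x, hx, rfl⟩
        exact L.smul_mem _ hx
      · intro heq
        apply hlt.not_ge
        apply nakayama
        intro x hx
        rw [← heq] at hx
        obtain ⟨y, hy, _, ⟨z, hz, rfl⟩, rfl⟩ := Submodule.mem_sup.1 hx
        exact ⟨y, hy, z, hz, rfl⟩
    · intro x hx
      exact Submodule.mem_sup_right ⟨x, hx, rfl⟩
  have hwf : WellFounded ((· > ·) : Submodule ℤ_[p] M → Submodule ℤ_[p] M → Prop) :=
    (inferInstance : WellFoundedGT (Submodule ℤ_[p] M)).wf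
  obtain ⟨L2, ⟨hs2, h12, h2, hp2⟩, hmax⟩ := hwf.has_min S hS
  obtain ⟨x, hx, hx2, hfix⟩ := exists_fixed hP hs2 h h2 ⟨1, fun x hx => by
    rw [pow_one]; exact hp2 x hx⟩
  -- `L2 + span x = L`
  have hst : Stable ρ (L2 ⊔ Submodule.span ℤ_[p] {x}) := by
    intro g y hy
    obtain ⟨a, ha, b, hb, rfl⟩ := Submodule.mem_sup.1 hy
    obtain ⟨c, rfl⟩ := Submodule.mem_span_singleton.1 hb
    have : ρ g (a + c • x) = (ρ g a + c • (ρ g x - x)) + c • x := by
      rw [map_add, map_smul, smul_sub]; abel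
    rw [this]
    exact Submodule.add_mem_sup (L2.add_mem (hs2 g a ha) (L2.smul_mem _ (hfix g)))
      (Submodule.smul_mem _ _ (Submodule.mem_span_singleton_self x))
  have hgt : L2 < L2 ⊔ Submodule.span ℤ_[p] {x} := by
    refine lt_of_le_of_ne le_sup_left ?_
    intro heq
    apply hx2
    rw [heq]
    exact Submodule.mem_sup_right (Submodule.mem_span_singleton_self x)
  have hleL : L2 ⊔ Submodule.span ℤ_[p] {x} ≤ L :=
    sup_le h2.le (by rw [Submodule.span_singleton_le_iff_mem]; exact hx)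
  have heqL : L2 ⊔ Submodule.span ℤ_[p] {x} = L := by
    by_contra hne
    exact hmax _ ⟨hst, h12.trans le_sup_left, lt_of_le_of_ne hleL hne,
      fun y hy => Submodule.mem_sup_left (hp2 y hy)⟩ hgt
  have hcomm : comm ρ L ≤ L2 := by
    apply comm_le
    intro g y hy
    rw [← heqL] at hy
    obtain ⟨a, ha, b, hb, rfl⟩ := Submodule.mem_sup.1 hy
    obtain ⟨c, rfl⟩ := Submodule.mem_span_singleton.1 hb
    have : ρ g (a + c • x) - (a + c • x) = (ρ g a - a) + c • (ρ g x - x) := by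
      rw [map_add, map_smul, smul_sub]; abel
    rw [this]
    exact L2.add_mem (L2.sub_mem (hs2 g a ha) ha) (L2.smul_mem _ (hfix g))
  exact h2.not_ge (hle.trans (sup_le h12 hcomm))

/-- Under uniseriality `[L, P]` is the largest proper stable submodule of `L`. -/
theorem le_comm_of_ne [Module.Finite ℤ_[p] M] [Finite P] (hP : IsPGroup p P)
    {ρ : P →* Module.End ℤ_[p] M} (hU : IsU ρ) {L1 L : Submodule ℤ_[p] M} (h1 : Stable ρ L1)
    (h : Stable ρ L) (hL : FinIdx L) (hle : L1 ≤ L) (hne : L1 ≠ L) : L1 ≤ comm ρ L := by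
  have hidx := hU L h hL
  have hle1 : comm ρ L ≤ L1 ⊔ comm ρ L := le_sup_right
  have hle2 : L1 ⊔ comm ρ L ≤ L := sup_le hle (comm_le_self h)
  have hmul := AddSubgroup.relIndex_mul_relIndex (comm ρ L).toAddSubgroup
    (L1 ⊔ comm ρ L).toAddSubgroup L.toAddSubgroup hle1 hle2
  rw [hidx] at hmul
  have hdvd : (L1 ⊔ comm ρ L).toAddSubgroup.relIndex L.toAddSubgroup ∣ p :=
    Dvd.intro_left _ hmul
  rcases (Nat.dvd_prime hp.out).1 hdvd with h1' | hp'
  · exfalso
    apply not_le_sup_comm hP h1 h (lt_of_le_of_ne hle hne)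
    exact AddSubgroup.relIndex_eq_one.1 h1'
  · rw [hp'] at hmul
    have : (comm ρ L).toAddSubgroup.relIndex (L1 ⊔ comm ρ L).toAddSubgroup = 1 :=
      Nat.eq_of_mul_eq_mul_right hp.out.pos (by rw [hmul, one_mul])
    have h3 : L1 ⊔ comm ρ L ≤ comm ρ L := AddSubgroup.relIndex_eq_one.1 this
    exact le_sup_left.trans h3

/-- The iterated commutator submodules. -/
def lowerS (ρ : P →* Module.End ℤ_[p] M) : ℕ → Submodule ℤ_[p] M
  | 0 => ⊤
  | n + 1 => comm ρ (lowerS ρ n)

theorem stable_lowerS (ρ : P →* Module.End ℤ_[p] M) (n : ℕ) : Stable ρ (lowerS ρ n) := by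
  induction n with
  | zero => exact stable_top ρ
  | succ n ih => exact stable_comm ih

theorem finIdx_comm [Module.Finite ℤ_[p] M] {ρ : P →* Module.End ℤ_[p] M} (hU : IsU ρ)
    {L : Submodule ℤ_[p] M} (h : Stable ρ L) (hL : FinIdx L) : FinIdx (comm ρ L) := by
  have hfin := finite_of_finIdx hL
  have h1 : L.toAddSubgroup.index ≠ 0 := by
    have : Finite (M ⧸ L.toAddSubgroup) := hfin
    exact AddSubgroup.index_ne_zero_of_finite
  have h2 : (comm ρ L).toAddSubgroup.index ≠ 0 := by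
    rw [← AddSubgroup.relIndex_mul_index (K := L.toAddSubgroup) (comm_le_self h), hU L h hL]
    exact mul_ne_zero hp.out.ne_zero h1
  have h3 : Finite (M ⧸ (comm ρ L).toAddSubgroup) := by
    have : (comm ρ L).toAddSubgroup.FiniteIndex := ⟨h2⟩
    exact AddSubgroup.finite_quotient_of_finiteIndex
  exact finIdx_of_finite h3

theorem finIdx_lowerS [Module.Finite ℤ_[p] M] {ρ : P →* Module.End ℤ_[p] M} (hU : IsU ρ)
    (n : ℕ) : FinIdx (lowerS ρ n) := by
  induction n with
  | zero => exact finIdx_top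
  | succ n ih => exact finIdx_comm hU (stable_lowerS ρ n) ih

theorem index_lowerS [Module.Finite ℤ_[p] M] {ρ : P →* Module.End ℤ_[p] M} (hU : IsU ρ)
    (n : ℕ) : (lowerS ρ n).toAddSubgroup.index = p ^ n := by
  induction n with
  | zero => simp [lowerS]
  | succ n ih =>
    have := AddSubgroup.relIndex_mul_index (H := (lowerS ρ (n + 1)).toAddSubgroup)
      (K := (lowerS ρ n).toAddSubgroup) (comm_le_self (stable_lowerS ρ n))
    rw [← this, ih]
    have h2 := hU (lowerS ρ n) (stable_lowerS ρ n) (finIdx_lowerS hU n)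
    change (comm ρ (lowerS ρ n)).toAddSubgroup.relIndex (lowerS ρ n).toAddSubgroup * p ^ n = _
    rw [h2, pow_succ, mul_comm]

theorem lowerS_antitone (ρ : P →* Module.End ℤ_[p] M) : Antitone (lowerS ρ) :=
  antitone_nat_of_succ_le fun n => comm_le_self (stable_lowerS ρ n)

theorem eq_lowerS [Module.Finite ℤ_[p] M] [Finite P] (hP : IsPGroup p P)
    {ρ : P →* Module.End ℤ_[p] M} (hU : IsU ρ) {L : Submodule ℤ_[p] M}
    (h : Stable ρ L) (hL : FinIdx L) : ∃ n, L = lowerS ρ n := by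
  by_contra hcon
  push Not at hcon
  have hall : ∀ n, L ≤ lowerS ρ n := by
    intro n
    induction n with
    | zero => exact le_top
    | succ n ih =>
      exact le_comm_of_ne hP hU h (stable_lowerS ρ n) (finIdx_lowerS hU n) ih (hcon n)
  have hfin := finite_of_finIdx hL
  have h1 : L.toAddSubgroup.index ≠ 0 := by
    have : Finite (M ⧸ L.toAddSubgroup) := hfin
    exact AddSubgroup.index_ne_zero_of_finite
  have h2 : ∀ n, p ^ n ∣ L.toAddSubgroup.index := by
    intro n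
    rw [← index_lowerS hU n]
    exact AddSubgroup.index_dvd_of_le (hall n)
  have h3 := Nat.le_of_dvd (Nat.pos_of_ne_zero h1) (h2 L.toAddSubgroup.index)
  exact absurd (Nat.lt_pow_self hp.out.one_lt) (not_lt.2 h3)

/-- Stable submodules of finite index form a chain. -/
theorem total_of_isU [Module.Finite ℤ_[p] M] [Finite P] (hP : IsPGroup p P)
    {ρ : P →* Module.End ℤ_[p] M} (hU : IsU ρ) {A B : Submodule ℤ_[p] M}
    (hA : Stable ρ A) (hAf : FinIdx A) (hB : Stable ρ B) (hBf : FinIdx B) : A ≤ B ∨ B ≤ A := by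
  obtain ⟨n, rfl⟩ := eq_lowerS hP hU hA hAf
  obtain ⟨m, rfl⟩ := eq_lowerS hP hU hB hBf
  rcases le_total n m with h | h
  · exact Or.inr (lowerS_antitone ρ h)
  · exact Or.inl (lowerS_antitone ρ h)

theorem eq_bot_of_decomp [Module.Finite ℤ_[p] M] [Finite P] (hP : IsPGroup p P)
    {ρ : P →* Module.End ℤ_[p] M} (hU : IsU ρ) {A B : Submodule ℤ_[p] M}
    (hA : Stable ρ A) (hB : Stable ρ B) (hAB : A ⊓ B = ⊥) (hf : FinIdx (A ⊔ B)) :
    A = ⊥ ∨ B = ⊥ := by
  obtain ⟨k, hk⟩ := hf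
  have hp0 : ((p : ℤ_[p]) ^ k) ≠ 0 := pow_ne_zero _ (by exact_mod_cast hp.out.ne_zero)
  have key : ∀ A B : Submodule ℤ_[p] M, A ⊓ B = ⊥ →
      (∀ x : M, (p : ℤ_[p]) ^ k • x ∈ A ⊔ B) →
      A ⊔ pM p M (k + 1) ≤ B ⊔ pM p M (k + 1) → A = ⊥ := by
    intro A B hAB hk hle
    rw [eq_bot_iff]
    apply nakayama
    intro a ha
    refine ⟨0, Submodule.zero_mem _, ?_⟩
    obtain ⟨b, hb, _, hm, hbm⟩ := Submodule.mem_sup.1 (hle (Submodule.mem_sup_left ha))
    obtain ⟨m, rfl⟩ := mem_pM.1 hm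
    obtain ⟨a', ha', b', hb', hab'⟩ := Submodule.mem_sup.1 (hk m)
    refine ⟨a', ha', ?_⟩
    rw [pow_succ', mul_smul, ← hab'] at hbm
    have h1 : a - (p : ℤ_[p]) • a' = b + (p : ℤ_[p]) • b' := by
      rw [← hbm, smul_add]; abel
    have h2 : a - (p : ℤ_[p]) • a' ∈ A ⊓ B := by
      refine ⟨A.sub_mem ha (A.smul_mem _ ha'), ?_⟩
      rw [h1]
      exact B.add_mem hb (B.smul_mem _ hb')
    rw [hAB, Submodule.mem_bot, sub_eq_zero] at h2
    rw [zero_add]
    exact h2
  have hAf : FinIdx (A ⊔ pM p M (k + 1)) := (finIdx_pM (k + 1)).mono le_sup_right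
  have hBf : FinIdx (B ⊔ pM p M (k + 1)) := (finIdx_pM (k + 1)).mono le_sup_right
  rcases total_of_isU hP hU (hA.sup (stable_pM ρ _)) hAf (hB.sup (stable_pM ρ _)) hBf with h | h
  · exact Or.inl (key A B hAB hk h)
  · exact Or.inr (key B A (by rw [inf_comm]; exact hAB) (by rw [sup_comm]; exact hk) h)

/-- Lemma 0. -/
theorem central_norm [Module.Finite ℤ_[p] M] [Finite P] (hP : IsPGroup p P)
    (htf : ∀ (c : ℤ_[p]) (x : M), c • x = 0 → c = 0 ∨ x = 0)
    {ρ : P →* Module.End ℤ_[p] M} (hU : IsU ρ) {z : P} (hz : ∀ g, g * z = z * g)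
    (hzp : z ^ p = 1) (hz1 : ρ z ≠ 1) (x : M) :
    ∑ j ∈ Finset.range p, ρ (z ^ j) x = 0 := by
  have hp0 : (p : ℤ_[p]) ≠ 0 := by exact_mod_cast hp.out.ne_zero
  let N : Module.End ℤ_[p] M := ∑ j ∈ Finset.range p, ρ z ^ j
  have hNx : ∀ x, N x = ∑ j ∈ Finset.range p, ρ (z ^ j) x := by
    intro x
    simp only [N, LinearMap.sum_apply, map_pow]
  have hzN : (ρ z - 1) * N = 0 := by
    have := mul_geom_sum (ρ z) p
    simp only [N]
    rw [this, ← map_pow, hzp, map_one, sub_self]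
  have hNz : N * (ρ z - 1) = 0 := by
    have := geom_sum_mul (ρ z) p
    simp only [N]
    rw [this, ← map_pow, hzp, map_one, sub_self]
  have hzN' : ρ z * N = N := by rw [sub_mul, one_mul, sub_eq_zero] at hzN; exact hzN
  have hpow : ∀ j, ρ z ^ j * N = N := by
    intro j
    induction j with
    | zero => simp
    | succ j ih => rw [pow_succ, mul_assoc, hzN', ih]
  have hNN : N * N = (p : Module.End ℤ_[p] M) * N := by
    conv_lhs => rw [show N * N = (∑ j ∈ Finset.range p, ρ z ^ j) * N from rfl]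
    rw [Finset.sum_mul, Finset.sum_congr rfl fun j _ => hpow j, Finset.sum_const,
      Finset.card_range, nsmul_eq_mul]
  have hcomm : ∀ g : P, ρ g * ρ z = ρ z * ρ g := fun g => by rw [← map_mul, hz, map_mul]
  have hcommN : ∀ g : P, ρ g * N = N * ρ g := by
    intro g
    simp only [N, Finset.mul_sum, Finset.sum_mul]
    apply Finset.sum_congr rfl
    intro j _
    have : Commute (ρ g) (ρ z) := hcomm g
    exact (this.pow_right j).eq
  let A : Submodule ℤ_[p] M := LinearMap.ker (ρ z - 1)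
  let B : Submodule ℤ_[p] M := LinearMap.ker N
  have hA : Stable ρ A := by
    intro g x hx
    simp only [A, LinearMap.mem_ker, LinearMap.sub_apply, Module.End.one_apply, sub_eq_zero] at hx ⊢
    have := congrArg (fun f => f x) (hcomm g)
    simp only [Module.End.mul_apply] at this
    rw [← this, hx]
  have hB : Stable ρ B := by
    intro g x hx
    simp only [B, LinearMap.mem_ker] at hx ⊢
    have := congrArg (fun f => f x) (hcommN g)
    simp only [Module.End.mul_apply] at this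
    rw [← this, hx, map_zero]
  have hfixN : ∀ x ∈ A, N x = (p : ℤ_[p]) • x := by
    intro x hx
    simp only [A, LinearMap.mem_ker, LinearMap.sub_apply, Module.End.one_apply, sub_eq_zero] at hx
    have : ∀ j, (ρ z ^ j) x = x := by
      intro j
      induction j with
      | zero => simp
      | succ j ih => rw [pow_succ, Module.End.mul_apply, hx, ih]
    simp only [N, LinearMap.sum_apply]
    rw [Finset.sum_congr rfl fun j _ => this j, Finset.sum_const, Finset.card_range,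
      Nat.cast_smul_eq_nsmul]
  have hAB : A ⊓ B = ⊥ := by
    rw [eq_bot_iff]
    rintro x ⟨hxA, hxB⟩
    have h1 := hfixN x hxA
    have h2 : N x = 0 := hxB
    rw [h2] at h1
    rcases htf _ _ h1.symm with h | h
    · exact absurd h hp0
    · exact h
  have hf : FinIdx (A ⊔ B) := by
    refine ⟨1, fun x => ?_⟩
    rw [pow_one]
    have : (p : ℤ_[p]) • x = N x + ((p : ℤ_[p]) • x - N x) := by abel
    rw [this]
    apply Submodule.add_mem_sup
    · simp only [A, LinearMap.mem_ker]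
      have := congrArg (fun f => f x) hzN
      simpa using this
    · simp only [B, LinearMap.mem_ker]
      rw [map_sub, map_smul, sub_eq_zero]
      have := congrArg (fun f => f x) hNN
      simp only [Module.End.mul_apply] at this
      rw [this]
      simp [Nat.cast_smul_eq_nsmul]
  rcases eq_bot_of_decomp hP hU hA hB hAB hf with h | h
  · have : N x ∈ A := by
      simp only [A, LinearMap.mem_ker]
      have := congrArg (fun f => f x) hzN
      simpa using this
    rw [h, Submodule.mem_bot, hNx] at this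
    exact this
  · exfalso
    apply hz1
    ext x
    have : (ρ z - 1) x ∈ B := by
      simp only [B, LinearMap.mem_ker]
      have := congrArg (fun f => f x) hNz
      simpa using this
    rw [h, Submodule.mem_bot, LinearMap.sub_apply, sub_eq_zero] at this
    exact this

end Pool.Agent.Helper67.Coclass
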