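import Pool.Agent.Helper67.Coclass.NormalPair
import Pool.Agent.Helper67.Coclass.Chain

set_option autoImplicit false

noncomputable section

namespace Pool.Agent.Helper67.Coclass

/-- Monomial data for a lattice. -/
def HasMono {p : ℕ} [Fact p.Prime] {P : Type*} [Group P] {M : Type*} [AddCommGroup M]
    [Module ℤ_[p] M] (ρ : P →* Module.End ℤ_[p] M) : Prop :=
  ∃ (H : Subgroup P) (b : ℕ) (lam : P → ZMod (p ^ b)) (h0 : P) (v0 : M) (π : M →ₗ[ℤ_[p]] M)
    (N N' : ℕ),
    1 ≤ b ∧ (∀ g ∈ H, ∀ h ∈ H, lam (g * h) = lam g + lam h) ∧ h0 ∈ H ∧ lam h0 = 1 ∧ v0 ≠ 0 ∧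
    (∀ h ∈ H, ρ h v0 = ρ (h0 ^ (lam h).val) v0) ∧
    ∑ j ∈ Finset.range p, ρ (h0 ^ (j * p ^ (b - 1))) v0 = 0 ∧
    (∀ h ∈ H, π (ρ h v0) = (p : ℤ_[p]) ^ N • ρ h v0) ∧ (∀ g, g ∉ H → π (ρ g v0) = 0) ∧
    ∀ v, (p : ℤ_[p]) ^ N' • v ∈ Submodule.span ℤ_[p] {w | ∃ g, w = ρ g v0}

variable {p : ℕ} [hp : Fact p.Prime]

section quotient

variable {P Q : Type*} [Group P] [Group Q] {M : Type*} [AddCommGroup M] [Module ℤ_[p] M]

theorem HasMono.of_comp {φ : P →* Q} (hφ : Function.Surjective φ)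
    {ρ' : Q →* Module.End ℤ_[p] M} (h : HasMono ρ') : HasMono (ρ'.comp φ) := by
  obtain ⟨H, b, lam, h0, v0, π, N, N', hb, hadd, hh0, hlam0, hv0, hact, hsum, hπ, hπ0, hF⟩ := h
  obtain ⟨k0, rfl⟩ := hφ h0
  refine ⟨H.comap φ, b, fun g => lam (φ g), k0, v0, π, N, N', hb, ?_, hh0, hlam0, hv0, ?_, ?_, ?_,
    ?_, ?_⟩
  · intro g hg h hh
    simp only [map_mul]
    exact hadd _ hg _ hh
  · intro h hh
    simp only [MonoidHom.comp_apply, map_pow]
    rw [hact _ hh, map_pow]
  · simp only [MonoidHom.comp_apply, map_pow] at hsum ⊢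
    exact hsum
  · intro h hh
    exact hπ _ hh
  · intro g hg
    exact hπ0 _ hg
  · intro v
    refine Submodule.span_mono ?_ (hF v)
    rintro _ ⟨g, rfl⟩
    obtain ⟨g, rfl⟩ := hφ g
    exact ⟨g, rfl⟩

theorem IsU.of_comp {φ : P →* Q} (hφ : Function.Surjective φ)
    {ρ' : Q →* Module.End ℤ_[p] M} (h : IsU (ρ'.comp φ)) : IsU ρ' := by
  intro L hL hf
  have h1 : Stable (ρ'.comp φ) L := fun g x hx => hL _ x hx
  have h2 : comm (ρ'.comp φ) L = comm ρ' L := by
    apply le_antisymm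
    · exact comm_le fun g x hx => mem_comm (φ g) hx
    · apply comm_le
      intro g x hx
      obtain ⟨g, rfl⟩ := hφ g
      exact mem_comm (ρ := ρ'.comp φ) g hx
  rw [← h2]
  exact h L h1 hf

end quotient

section cyclic

variable {P : Type*} [Group P] {M : Type*} [AddCommGroup M] [Module ℤ_[p] M]

theorem comm_top_ne [Module.Finite ℤ_[p] M] {ρ : P →* Module.End ℤ_[p] M} (hU : IsU ρ) :
    ∃ v : M, v ∉ comm ρ ⊤ := by
  have h := hU ⊤ (stable_top ρ) finIdx_top
  by_contra hcon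
  push Not at hcon
  have : (comm ρ ⊤).toAddSubgroup.relIndex (⊤ : Submodule ℤ_[p] M).toAddSubgroup = 1 :=
    AddSubgroup.relIndex_eq_one.2 fun x _ => hcon x
  rw [this] at h
  exact hp.out.one_lt.ne h

theorem span_orbit_eq_top [Module.Finite ℤ_[p] M] [Finite P] (hP : IsPGroup p P)
    {ρ : P →* Module.End ℤ_[p] M} (hU : IsU ρ) {v : M} (hv : v ∉ comm ρ ⊤) :
    Submodule.span ℤ_[p] {w | ∃ g, w = ρ g v} = ⊤ := by
  by_contra hne
  have hst : Stable ρ (Submodule.span ℤ_[p] {w | ∃ g, w = ρ g v}) := by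
    intro g x hx
    induction hx using Submodule.span_induction with
    | mem x hx =>
      obtain ⟨h, rfl⟩ := hx
      exact Submodule.subset_span ⟨g * h, by rw [map_mul]; rfl⟩
    | zero => rw [map_zero]; exact Submodule.zero_mem _
    | add x y _ _ hx hy => rw [map_add]; exact Submodule.add_mem _ hx hy
    | smul c x _ hx => rw [map_smul]; exact Submodule.smul_mem _ _ hx
  have := le_comm_of_ne hP hU hst (stable_top ρ) finIdx_top le_top hne
  exact hv (this (Submodule.subset_span ⟨1, by rw [map_one]; rfl⟩))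

theorem exists_ne_one [Module.Finite ℤ_[p] M] [Nontrivial M]
    (htf : ∀ (c : ℤ_[p]) (x : M), c • x = 0 → c = 0 ∨ x = 0)
    {ρ : P →* Module.End ℤ_[p] M} (hU : IsU ρ) : ∃ g : P, ρ g ≠ 1 := by
  by_contra hcon
  push Not at hcon
  have h1 : comm ρ ⊤ = ⊥ := by
    rw [eq_bot_iff]
    apply comm_le
    intro g x _
    rw [hcon g]
    simp
  obtain ⟨n, hn⟩ := finIdx_comm hU (stable_top ρ) finIdx_top
  obtain ⟨x, hx⟩ := exists_ne (0 : M)
  have := hn x
  rw [h1, Submodule.mem_bot] at this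
  rcases htf _ _ this with h | h
  · exact pow_ne_zero n (by exact_mod_cast hp.out.ne_zero) h
  · exact hx h

theorem hasMono_of_cyclic [Module.Finite ℤ_[p] M] [Nontrivial M] [Finite P] (hP : IsPGroup p P)
    [hc : IsCyclic P] (htf : ∀ (c : ℤ_[p]) (x : M), c • x = 0 → c = 0 ∨ x = 0)
    {ρ : P →* Module.End ℤ_[p] M} (hU : IsU ρ) (hf : Function.Injective ρ) : HasMono ρ := by
  classical
  obtain ⟨g0, hg0⟩ := hc.exists_generator
  obtain ⟨b, hb⟩ := IsPGroup.iff_card.1 hP
  have hord : orderOf g0 = p ^ b := by rw [← hb]; exact orderOf_eq_card_of_forall_mem_zpowers hg0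
  have hgen : ∀ x : P, ∃ k : ℕ, x = g0 ^ k := by
    intro x
    obtain ⟨k, hk⟩ := mem_powers_iff_mem_zpowers.2 (hg0 x)
    exact ⟨k, hk.symm⟩
  choose k hk using hgen
  have hb1 : 1 ≤ b := by
    rcases Nat.eq_zero_or_pos b with rfl | h
    · exfalso
      obtain ⟨g, hg⟩ := exists_ne_one htf hU
      apply hg
      rw [pow_zero] at hb
      have := (Nat.card_eq_one_iff_unique.1 hb).1
      rw [Subsingleton.elim g 1, map_one]
    · exact h
  have hcommute : ∀ g h : P, g * h = h * g := by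
    intro g h
    rw [hk g, hk h, ← pow_add, ← pow_add, add_comm]
  have hlam : ∀ (x : P) (n : ℕ), x = g0 ^ n → (k x : ZMod (p ^ b)) = n := by
    intro x n hn
    have h1 : g0 ^ k x = g0 ^ n := by rw [← hk, hn]
    rw [pow_eq_pow_iff_modEq, hord] at h1
    exact (ZMod.natCast_eq_natCast_iff _ _ _).2 h1
  obtain ⟨v0, hv0⟩ := comm_top_ne hU
  have hne : NeZero (p ^ b) := ⟨pow_ne_zero _ hp.out.ne_zero⟩
  refine ⟨⊤, b, fun x => (k x : ZMod (p ^ b)), g0, v0, LinearMap.id, 0, 0, hb1, ?_, trivial, ?_, ?_,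
    ?_, ?_, ?_, ?_, ?_⟩
  · intro g _ h _
    change (k (g * h) : ZMod (p ^ b)) = k g + k h
    rw [hlam (g * h) (k g + k h) (by rw [pow_add, ← hk, ← hk]), Nat.cast_add]
  · change (k g0 : ZMod (p ^ b)) = 1
    rw [hlam g0 1 (by rw [pow_one]), Nat.cast_one]
  · rintro rfl
    exact hv0 (Submodule.zero_mem _)
  · intro h _
    congr 2
    conv_lhs => rw [hk h]
    rw [pow_eq_pow_iff_modEq, hord, ← ZMod.natCast_eq_natCast_iff, ZMod.natCast_zmod_val]
  · have hzp : (g0 ^ p ^ (b - 1)) ^ p = 1 := by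
      rw [← pow_mul, ← pow_succ, Nat.sub_add_cancel hb1, ← hord, pow_orderOf_eq_one]
    have hz1 : ρ (g0 ^ p ^ (b - 1)) ≠ 1 := by
      rw [← map_one ρ]
      intro h
      have h1 := orderOf_dvd_of_pow_eq_one (hf h)
      rw [hord] at h1
      have h2 := (Nat.pow_dvd_pow_iff_le_right hp.out.one_lt).1 h1
      omega
    have := central_norm hP htf hU (fun g => hcommute _ _) hzp hz1 v0
    rw [← this]
    apply Finset.sum_congr rfl
    intro j _
    rw [← pow_mul, mul_comm j]
  · intro h _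
    simp
  · intro g hg
    exact absurd trivial hg
  · intro v
    rw [span_orbit_eq_top hP hU hv0]
    trivial

end cyclic

section step

variable {P : Type*} [Group P] {M : Type*} [AddCommGroup M] [Module ℤ_[p] M]

/-- The common setting of the induction step. -/
structure StepData (ρ : P →* Module.End ℤ_[p] M) (z y u1 : P) (f : P →* P) : Prop where
  fdef : ∀ u, u * y * u⁻¹ = y * f u
  hcen : ∀ g, g * z = z * g
  hzp : z ^ p = 1
  hz1 : z ≠ 1
  hyp : y ^ p = 1
  hfz : ∀ u, ∃ m : ℕ, m < p ∧ f u = z ^ m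
  hu1 : f u1 = z
  hnorm : ∀ m : ℕ, z ^ m ≠ 1 → ∀ x, ∑ j ∈ Finset.range p, ρ ((z ^ m) ^ j) x = 0

variable {ρ : P →* Module.End ℤ_[p] M} {z y u1 : P} {f : P →* P}

/-- The element `∑ (y z^m)^j`. -/
def EE (ρ : P →* Module.End ℤ_[p] M) (z y : P) (m : ℕ) : Module.End ℤ_[p] M :=
  ∑ j ∈ Finset.range p, ρ ((y * z ^ m) ^ j)

/-- The fixed module of `y`. -/
def M0 (ρ : P →* Module.End ℤ_[p] M) (y : P) : Submodule ℤ_[p] M :=
  LinearMap.eqLocus (ρ y) LinearMap.id

theorem mem_M0 {x : M} : x ∈ M0 ρ y ↔ ρ y x = x := by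
  simp [M0]

theorem fix_pow {x : M} (hx : ρ y x = x) (j : ℕ) : ρ (y ^ j) x = x := by
  induction j with
  | zero => simp
  | succ j ih => rw [pow_succ, map_mul, Module.End.mul_apply, hx, ih]

include hp in
theorem StepData.pow_ne_one (D : StepData ρ z y u1 f) {m : ℕ} (h0 : 0 < m) (hm : m < p) :
    z ^ m ≠ 1 := by
  intro h
  have h1 : orderOf z = p := orderOf_eq_prime D.hzp D.hz1
  have h2 := orderOf_dvd_of_pow_eq_one h
  rw [h1] at h2
  exact absurd (Nat.le_of_dvd h0 h2) (not_le.2 hm)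

theorem StepData.sum_EE (D : StepData ρ z y u1 f) (x : M) :
    ∑ m ∈ Finset.range p, EE ρ z y m x = (p : ℤ_[p]) • x := by
  have h1 : ∀ m, EE ρ z y m x = ∑ j ∈ Finset.range p, ρ (y ^ j) (ρ ((z ^ j) ^ m) x) := by
    intro m
    rw [EE, LinearMap.sum_apply]
    apply Finset.sum_congr rfl
    intro j _
    have hyz : Commute y (z ^ m) := by
      have : Commute y z := D.hcen y
      exact this.pow_right m
    rw [hyz.mul_pow, map_mul, Module.End.mul_apply, ← pow_mul, ← pow_mul, mul_comm m]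
  simp only [h1]
  rw [Finset.sum_comm]
  have hpos := hp.out.pos
  rw [Finset.sum_eq_single_of_mem 0 (Finset.mem_range.2 hpos)]
  · simp [Nat.cast_smul_eq_nsmul]
  · intro j hj hj0
    rw [← map_sum, D.hnorm j (D.pow_ne_one (Nat.pos_of_ne_zero hj0) (Finset.mem_range.1 hj)) x,
      map_zero]

theorem StepData.conj_EE (D : StepData ρ z y u1 f) (m : ℕ) (x : M) :
    EE ρ z y m x = ρ (u1 ^ m) (EE ρ z y 0 (ρ ((u1 ^ m)⁻¹) x)) := by
  rw [EE, EE, LinearMap.sum_apply, LinearMap.sum_apply, map_sum]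
  apply Finset.sum_congr rfl
  intro j _
  rw [← Module.End.mul_apply, ← Module.End.mul_apply, ← map_mul, ← map_mul]
  congr 2
  have h1 : u1 ^ m * y * (u1 ^ m)⁻¹ = y * z ^ m := by
    rw [D.fdef, map_pow, D.hu1]
  rw [← h1, conj_pow, pow_zero, mul_one, mul_assoc]

theorem StepData.p_smul (D : StepData ρ z y u1 f) (x : M) :
    (p : ℤ_[p]) • x =
      ∑ m ∈ Finset.range p, ρ (u1 ^ m) (EE ρ z y 0 (ρ ((u1 ^ m)⁻¹) x)) := by
  rw [← D.sum_EE x]
  exact Finset.sum_congr rfl fun m _ => D.conj_EE m x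

theorem StepData.EE_zero (D : StepData ρ z y u1 f) {g : P} (hg : f g ≠ 1) {x : M}
    (hx : ρ y x = x) : EE ρ z y 0 (ρ g x) = 0 := by
  rw [EE, LinearMap.sum_apply]
  obtain ⟨m, -, hm⟩ := D.hfz g⁻¹
  have hm1 : z ^ m ≠ 1 := by
    rw [← hm, map_inv, Ne, inv_eq_one]
    exact hg
  have h1 : g⁻¹ * y * g = y * z ^ m := by
    have := D.fdef g⁻¹
    rw [inv_inv, hm] at this
    exact this
  have h2 : ∀ j, ρ ((y * z ^ 0) ^ j) (ρ g x) = ρ g (ρ ((z ^ m) ^ j) x) := by
    intro j
    have hyz : Commute (z ^ m) y := by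
      have : Commute y z := D.hcen y
      exact (this.pow_right m).symm
    have h3 : y ^ j * g = g * ((z ^ m) ^ j * y ^ j) := by
      rw [← hyz.mul_pow, ← hyz.eq.symm, ← h1]
      rw [show g⁻¹ * y * g = g⁻¹ * y * (g⁻¹)⁻¹ by rw [inv_inv], conj_pow, inv_inv]
      group
    rw [← Module.End.mul_apply, ← map_mul, pow_zero, mul_one, h3, map_mul, map_mul,
      Module.End.mul_apply, Module.End.mul_apply, fix_pow hx]
  rw [Finset.sum_congr rfl fun j _ => h2 j, ← map_sum, D.hnorm m hm1, map_zero]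

theorem StepData.fix_of_ker (D : StepData ρ z y u1 f) {g : P} (hg : f g = 1) {x : M}
    (hx : ρ y x = x) : ρ y (ρ g x) = ρ g x := by
  have h1 : y * g = g * y := by
    have := D.fdef g
    rw [hg, mul_one, mul_inv_eq_iff_eq_mul] at this
    exact this.symm
  rw [← Module.End.mul_apply, ← map_mul, h1, map_mul, Module.End.mul_apply, hx]

theorem StepData.EE_fix (x : M) (hx : ρ y x = x) : EE ρ z y 0 x = (p : ℤ_[p]) • x := by
  rw [EE, LinearMap.sum_apply]
  have : ∀ j, ρ ((y * z ^ 0) ^ j) x = x := by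
    intro j
    rw [pow_zero, mul_one, fix_pow hx]
  rw [Finset.sum_congr rfl fun j _ => this j, Finset.sum_const, Finset.card_range,
    Nat.cast_smul_eq_nsmul]

theorem StepData.EE_mem (D : StepData ρ z y u1 f) (x : M) : EE ρ z y 0 x ∈ M0 ρ y := by
  rw [mem_M0]
  have h1 : ρ y * EE ρ z y 0 = EE ρ z y 0 := by
    have h2 : EE ρ z y 0 = ∑ j ∈ Finset.range p, (ρ y) ^ j := by
      rw [EE]
      apply Finset.sum_congr rfl
      intro j _
      rw [pow_zero, mul_one, map_pow]
    have h3 := mul_geom_sum (ρ y) p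
    rw [← map_pow, D.hyp, map_one, sub_self, sub_mul, one_mul, sub_eq_zero] at h3
    rw [h2]
    exact h3
  rw [← Module.End.mul_apply, h1]

/-- The operator `T`. -/
def TT (ρ : P →* Module.End ℤ_[p] M) (z y u1 : P) : Module.End ℤ_[p] M :=
  ∑ m ∈ Finset.range p, EE ρ z y 0 * ρ ((u1 ^ m)⁻¹)

theorem StepData.coset (D : StepData ρ z y u1 f) (g : P) :
    ∃ m : ℕ, m < p ∧ f ((u1 ^ m)⁻¹ * g) = 1 := by
  obtain ⟨m, hm, h⟩ := D.hfz g
  refine ⟨m, hm, ?_⟩
  rw [map_mul, map_inv, map_pow, D.hu1, h, inv_mul_cancel]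

theorem StepData.TT_apply (D : StepData ρ z y u1 f) (g : P) :
    ∃ k, f k = 1 ∧ ∀ x, ρ y x = x → TT ρ z y u1 (ρ g x) = (p : ℤ_[p]) • ρ k x := by
  obtain ⟨m, hm, h⟩ := D.coset g
  refine ⟨(u1 ^ m)⁻¹ * g, h, ?_⟩
  intro x hx
  rw [TT, LinearMap.sum_apply, Finset.sum_eq_single_of_mem m (Finset.mem_range.2 hm)]
  · rw [Module.End.mul_apply, ← Module.End.mul_apply (ρ _) (ρ g), ← map_mul]
    exact StepData.EE_fix _ (D.fix_of_ker h hx)
  · intro m' hm' hne
    rw [Module.End.mul_apply, ← Module.End.mul_apply (ρ _) (ρ g), ← map_mul]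
    apply D.EE_zero _ hx
    intro h'
    apply hne
    have h1 : f ((u1 ^ m)⁻¹ * g) = f ((u1 ^ m')⁻¹ * g) := by rw [h, h']
    rw [map_mul, map_mul, mul_left_inj, map_inv, map_inv, inv_inj, map_pow, map_pow, D.hu1,
      pow_eq_pow_iff_modEq, orderOf_eq_prime D.hzp D.hz1] at h1
    exact (Nat.ModEq.eq_of_lt_of_lt h1 hm (Finset.mem_range.1 hm')).symm

theorem StepData.TT_ker (D : StepData ρ z y u1 f) {g : P} (hg : f g = 1) {x : M}
    (hx : ρ y x = x) : TT ρ z y u1 (ρ g x) = (p : ℤ_[p]) • ρ g x := by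
  rw [TT, LinearMap.sum_apply, Finset.sum_eq_single_of_mem 0 (Finset.mem_range.2 hp.out.pos)]
  · rw [Module.End.mul_apply, pow_zero, inv_one, map_one, Module.End.one_apply]
    exact StepData.EE_fix _ (D.fix_of_ker hg hx)
  · intro m' hm' hne
    rw [Module.End.mul_apply, ← Module.End.mul_apply (ρ _) (ρ g), ← map_mul]
    apply D.EE_zero _ hx
    rw [map_mul, hg, mul_one, map_inv, map_pow, D.hu1, Ne, inv_eq_one]
    exact D.pow_ne_one (Nat.pos_of_ne_zero hne) (Finset.mem_range.1 hm')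

/-- The action of the centraliser on the fixed module. -/
def rho0 (D : StepData ρ z y u1 f) : f.ker →* Module.End ℤ_[p] (M0 ρ y) where
  toFun g := (ρ g).restrict (fun x hx => by
    rw [mem_M0] at hx ⊢
    exact D.fix_of_ker g.2 hx)
  map_one' := by
    ext x
    simp
  map_mul' g h := by
    ext x
    simp

theorem rho0_apply (D : StepData ρ z y u1 f) (g : f.ker) (x : M0 ρ y) :
    ((rho0 D g x : M0 ρ y) : M) = ρ g x := rfl

/-- `e_0` as a map to the fixed module. -/
def e0 (D : StepData ρ z y u1 f) : M →ₗ[ℤ_[p]] M0 ρ y :=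
  LinearMap.codRestrict (M0 ρ y) (EE ρ z y 0) D.EE_mem

theorem e0_apply (D : StepData ρ z y u1 f) (x : M) : ((e0 D x : M0 ρ y) : M) = EE ρ z y 0 x := rfl

/-- The submodule generated by the translates of `L`. -/
def LL (D : StepData ρ z y u1 f) (L : Submodule ℤ_[p] (M0 ρ y)) : Submodule ℤ_[p] M :=
  let _ := D
  Submodule.span ℤ_[p] {w | ∃ (g : P) (x : M0 ρ y), x ∈ L ∧ w = ρ g (x : M)}

theorem mem_LL (D : StepData ρ z y u1 f) {L : Submodule ℤ_[p] (M0 ρ y)} (g : P) {x : M0 ρ y}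
    (hx : x ∈ L) : ρ g (x : M) ∈ LL D L := Submodule.subset_span ⟨g, x, hx, rfl⟩

theorem mem_LL' (D : StepData ρ z y u1 f) {L : Submodule ℤ_[p] (M0 ρ y)} {x : M0 ρ y}
    (hx : x ∈ L) : (x : M) ∈ LL D L := by
  have := mem_LL D 1 hx
  rwa [map_one, Module.End.one_apply] at this

theorem stable_LL (D : StepData ρ z y u1 f) (L : Submodule ℤ_[p] (M0 ρ y)) :
    Stable ρ (LL D L) := by
  intro g x hx
  induction hx using Submodule.span_induction with
  | mem x hx =>
    obtain ⟨h, x, hx, rfl⟩ := hx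
    exact Submodule.subset_span ⟨g * h, x, hx, by rw [map_mul]; rfl⟩
  | zero => rw [map_zero]; exact Submodule.zero_mem _
  | add x y _ _ hx hy => rw [map_add]; exact Submodule.add_mem _ hx hy
  | smul c x _ hx => rw [map_smul]; exact Submodule.smul_mem _ _ hx

theorem finIdx_LL (D : StepData ρ z y u1 f) {L : Submodule ℤ_[p] (M0 ρ y)} (hLf : FinIdx L) :
    FinIdx (LL D L) := by
  obtain ⟨n, hn⟩ := hLf
  refine ⟨n + 1, fun x => ?_⟩
  rw [pow_succ, mul_smul, D.p_smul x, Finset.smul_sum]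
  apply Submodule.sum_mem
  intro m _
  rw [← map_smul]
  have h1 := hn (e0 D (ρ ((u1 ^ m)⁻¹) x))
  exact mem_LL D (u1 ^ m) h1

theorem TT_gen (D : StepData ρ z y u1 f) {L : Submodule ℤ_[p] (M0 ρ y)} (u : P) (w : M)
    (hw : w ∈ LL D L) : ∃ c ∈ comm (rho0 D) L,
      TT ρ z y u1 (ρ u w - w) = (p : ℤ_[p]) • (c : M) := by
  induction hw using Submodule.span_induction with
  | mem w hw =>
    obtain ⟨g, x, hx, rfl⟩ := hw
    obtain ⟨k, hk, hTk⟩ := D.TT_apply g
    obtain ⟨k', hk', hTk'⟩ := D.TT_apply (u * g)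
    have hfx := mem_M0.1 x.2
    refine ⟨(rho0 D ⟨k', hk'⟩ x - x) - (rho0 D ⟨k, hk⟩ x - x), ?_, ?_⟩
    · exact (comm (rho0 D) L).sub_mem (mem_comm _ hx) (mem_comm _ hx)
    · rw [sub_sub_sub_cancel_right, Submodule.coe_sub, rho0_apply, rho0_apply, map_sub,
        ← Module.End.mul_apply (ρ u), ← map_mul, hTk' x hfx, hTk x hfx, smul_sub]
  | zero => exact ⟨0, Submodule.zero_mem _, by simp⟩
  | add a b _ _ ha hb =>
    obtain ⟨c, hc, hc'⟩ := ha
    obtain ⟨d, hd, hd'⟩ := hb
    refine ⟨c + d, Submodule.add_mem _ hc hd, ?_⟩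
    rw [Submodule.coe_add, smul_add, ← hc', ← hd', ← map_add, map_add (ρ u)]
    congr 1
    abel
  | smul r a _ ha =>
    obtain ⟨c, hc, hc'⟩ := ha
    refine ⟨r • c, Submodule.smul_mem _ _ hc, ?_⟩
    rw [Submodule.coe_smul, smul_comm, ← hc', ← map_smul, map_smul (ρ u), smul_sub]

theorem TT_comm (D : StepData ρ z y u1 f) {L : Submodule ℤ_[p] (M0 ρ y)} (w : M)
    (hw : w ∈ comm ρ (LL D L)) : ∃ c ∈ comm (rho0 D) L,
      TT ρ z y u1 w = (p : ℤ_[p]) • (c : M) := by
  induction hw using Submodule.span_induction with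
  | mem w hw =>
    obtain ⟨g, x, hx, rfl⟩ := hw
    exact TT_gen D g x hx
  | zero => exact ⟨0, Submodule.zero_mem _, by simp⟩
  | add a b _ _ ha hb =>
    obtain ⟨c, hc, hc'⟩ := ha
    obtain ⟨d, hd, hd'⟩ := hb
    exact ⟨c + d, Submodule.add_mem _ hc hd, by rw [map_add, hc', hd', Submodule.coe_add, smul_add]⟩
  | smul r a _ ha =>
    obtain ⟨c, hc, hc'⟩ := ha
    exact ⟨r • c, Submodule.smul_mem _ _ hc, by rw [map_smul, hc', Submodule.coe_smul, smul_comm]⟩

theorem sup_LL (D : StepData ρ z y u1 f) (L : Submodule ℤ_[p] (M0 ρ y)) :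
    L.map (M0 ρ y).subtype ⊔ comm ρ (LL D L) = LL D L := by
  apply le_antisymm
  · apply sup_le
    · rintro _ ⟨x, hx, rfl⟩
      exact mem_LL' D hx
    · exact comm_le_self (stable_LL D L)
  · apply Submodule.span_le.2
    rintro _ ⟨g, x, hx, rfl⟩
    have : ρ g x = (x : M) + (ρ g x - x) := by abel
    rw [this]
    exact Submodule.add_mem_sup ⟨x, hx, rfl⟩ (mem_comm g (mem_LL' D hx))

theorem inf_LL (htf : ∀ (c : ℤ_[p]) (x : M), c • x = 0 → c = 0 ∨ x = 0)
    (D : StepData ρ z y u1 f) (L : Submodule ℤ_[p] (M0 ρ y)) (hL : Stable (rho0 D) L) :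
    comm ρ (LL D L) ⊓ L.map (M0 ρ y).subtype = (comm (rho0 D) L).map (M0 ρ y).subtype := by
  have hp0 : (p : ℤ_[p]) ≠ 0 := by exact_mod_cast hp.out.ne_zero
  apply le_antisymm
  · rintro w ⟨hw, hwL⟩
    obtain ⟨x, hx, rfl⟩ := hwL
    obtain ⟨c, hc, hc'⟩ := TT_comm D _ hw
    have h4 : TT ρ z y u1 (x : M) = (p : ℤ_[p]) • (x : M) := by
      have := D.TT_ker (g := 1) (map_one f) (mem_M0.1 x.2)
      rwa [map_one, Module.End.one_apply] at this
    rw [Submodule.subtype_apply, h4] at hc'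
    have h5 : (p : ℤ_[p]) • ((x : M) - c) = 0 := by rw [smul_sub, hc', sub_self]
    rcases htf _ _ h5 with h | h
    · exact absurd h hp0
    · rw [sub_eq_zero] at h
      exact ⟨c, hc, h.symm⟩
  · rw [Submodule.map_le_iff_le_comap]
    apply comm_le
    intro g x hx
    have h5 : ρ (g : P) (x : M) - (x : M) ∈ comm ρ (LL D L) := mem_comm (g : P) (mem_LL' D hx)
    have h6 : (M0 ρ y).subtype (rho0 D g x - x) = ρ (g : P) (x : M) - (x : M) := by
      rw [map_sub, Submodule.subtype_apply, Submodule.subtype_apply, rho0_apply]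
    rw [Submodule.mem_comap, Submodule.mem_inf]
    refine ⟨by rw [h6]; exact h5, ?_⟩
    exact Submodule.mem_map_of_mem (L.sub_mem (hL g x hx) hx)

theorem relIndex_map_sub {N : Type*} [AddCommGroup N] [Module ℤ_[p] N] (S : Submodule ℤ_[p] N)
    (A B : Submodule ℤ_[p] S) : (A.map S.subtype).toAddSubgroup.relIndex
      (B.map S.subtype).toAddSubgroup = A.toAddSubgroup.relIndex B.toAddSubgroup :=
  AddSubgroup.relIndex_map_map_of_injective (f := S.subtype.toAddMonoidHom)
      A.toAddSubgroup B.toAddSubgroup (Subtype.val_injective)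

theorem relIndex_inf_sup {N : Type*} [AddCommGroup N] [Module ℤ_[p] N]
    (A B : Submodule ℤ_[p] N) : (A ⊓ B).toAddSubgroup.relIndex B.toAddSubgroup =
      A.toAddSubgroup.relIndex (B ⊔ A).toAddSubgroup := by
  have h5 : (A ⊓ B).toAddSubgroup = A.toAddSubgroup ⊓ B.toAddSubgroup := by
    ext x
    simp
  rw [h5, AddSubgroup.inf_relIndex_right, Submodule.sup_toAddSubgroup]
  exact (AddSubgroup.relIndex_sup_right B.toAddSubgroup A.toAddSubgroup).symm

theorem isU_rho0 (htf : ∀ (c : ℤ_[p]) (x : M), c • x = 0 → c = 0 ∨ x = 0)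
    (D : StepData ρ z y u1 f) (hU : IsU ρ) : IsU (rho0 D) := by
  intro L hL hLf
  have hidx := hU (LL D L) (stable_LL D L) (finIdx_LL D hLf)
  have h4 := relIndex_map_sub (M0 ρ y) (comm (rho0 D) L) L
  rw [← h4, ← inf_LL htf D L hL, relIndex_inf_sup, sup_LL, hidx]

/-- Extension by zero of a function on the kernel. -/
def lamExt {A : Type*} [Zero A] (f : P →* P) (lam : f.ker → A) : P → A := fun g => by
  classical
  exact if hg : f g = 1 then lam ⟨g, hg⟩ else 0

theorem lamExt_apply {A : Type*} [Zero A] {f : P →* P} (lam : f.ker → A) (g : f.ker) :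
    lamExt f lam (g : P) = lam g := by
  have h : f (g : P) = 1 := g.2
  simp only [lamExt, dif_pos h]

theorem hasMono_of_rho0 (D : StepData ρ z y u1 f) (h : HasMono (rho0 D)) : HasMono ρ := by
  obtain ⟨H, b, lam, h0, v0, π, N, N', hb, hadd, hh0, hlam0, hv0, hact, hsum, hπ, hπ0, hF⟩ := h
  have hfix : ∀ x : M0 ρ y, ρ y (x : M) = x := fun x => mem_M0.1 x.2
  have he0K : ∀ g : f.ker, e0 D (ρ g v0) = (p : ℤ_[p]) • rho0 D g v0 := by
    intro g
    apply Subtype.ext
    rw [e0_apply]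
    exact StepData.EE_fix _ (D.fix_of_ker g.2 (hfix v0))
  refine ⟨H.map f.ker.subtype, b, lamExt f lam, h0, v0,
    (M0 ρ y).subtype ∘ₗ π ∘ₗ e0 D, N + 1, N' + 1, hb, ?_, ⟨h0, hh0, rfl⟩, ?_, ?_, ?_, ?_, ?_, ?_,
    ?_⟩
  · rintro _ ⟨g, hg, rfl⟩ _ ⟨h, hh, rfl⟩
    rw [← map_mul]
    simp only [Subgroup.subtype_apply]
    rw [lamExt_apply, lamExt_apply, lamExt_apply]
    exact hadd g hg h hh
  · rw [lamExt_apply]
    exact hlam0
  · intro h
    apply hv0
    exact Subtype.ext h
  · rintro _ ⟨h, hh, rfl⟩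
    simp only [Subgroup.subtype_apply]
    rw [lamExt_apply]
    have := congrArg Subtype.val (hact h hh)
    exact this
  · have := congrArg Subtype.val hsum
    rw [Submodule.coe_zero] at this
    rw [← this, AddSubmonoidClass.coe_finsetSum]
    rfl
  · rintro _ ⟨h, hh, rfl⟩
    simp only [Subgroup.subtype_apply, LinearMap.comp_apply]
    rw [he0K, map_smul, hπ h hh, map_smul, map_smul, smul_smul, pow_succ']
    rfl
  · intro g hg
    simp only [LinearMap.comp_apply]
    by_cases hg1 : f g = 1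
    · have h1 : (⟨g, hg1⟩ : f.ker) ∉ H := fun h => hg ⟨_, h, rfl⟩
      have h2 := he0K ⟨g, hg1⟩
      simp only at h2
      rw [h2, map_smul, hπ0 _ h1, smul_zero, map_zero]
    · have h1 : e0 D (ρ g v0) = 0 := by
        apply Subtype.ext
        rw [e0_apply, D.EE_zero hg1 (hfix v0)]
        rfl
      rw [h1, map_zero, map_zero]
  · intro v
    rw [pow_succ, mul_smul, D.p_smul v, Finset.smul_sum]
    apply Submodule.sum_mem
    intro m _
    rw [← map_smul]
    have h1 : ∀ w ∈ Submodule.span ℤ_[p] {w | ∃ g, w = rho0 D g v0},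
        ρ (u1 ^ m) (w : M) ∈ Submodule.span ℤ_[p] {w | ∃ g, w = ρ g v0} := by
      intro w hw
      induction hw using Submodule.span_induction with
      | mem w hw =>
        obtain ⟨g, rfl⟩ := hw
        refine Submodule.subset_span ⟨u1 ^ m * g, ?_⟩
        rw [rho0_apply, ← Module.End.mul_apply, ← map_mul]
      | zero => simp
      | add a b _ _ ha hb =>
        rw [Submodule.coe_add, map_add]
        exact Submodule.add_mem _ ha hb
      | smul r a _ ha =>
        rw [Submodule.coe_smul, map_smul]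
        exact Submodule.smul_mem _ _ ha
    exact h1 _ (hF (e0 D (ρ ((u1 ^ m)⁻¹) v)))

end step

/-- Every uniserial lattice is monomial in the required sense. -/
theorem hasMono (hp2 : p ≠ 2) : ∀ (n : ℕ) (P : Type) [Group P] [Finite P], Nat.card P ≤ n →
    IsPGroup p P → ∀ (M : Type) [AddCommGroup M] [Module ℤ_[p] M] [Module.Finite ℤ_[p] M]
    [Nontrivial M], (∀ (c : ℤ_[p]) (x : M), c • x = 0 → c = 0 ∨ x = 0) →
    ∀ (ρ : P →* Module.End ℤ_[p] M), IsU ρ → HasMono ρ := by
  intro n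
  induction n with
  | zero =>
    intro P _ _ hn
    have := Nat.card_pos (α := P)
    omega
  | succ n ih =>
    intro P _ _ hn hP M _ _ _ _ htf ρ hU
    have hp0 : (p : ℤ_[p]) ≠ 0 := by exact_mod_cast hp.out.ne_zero
    by_cases hker : ρ.ker = ⊥
    swap
    · -- not faithful
      have hcard : Nat.card (P ⧸ ρ.ker) ≤ n := by
        have h1 := Subgroup.card_eq_card_quotient_mul_card_subgroup ρ.ker
        have h2 : 1 < Nat.card ρ.ker := by
          rw [Subgroup.one_lt_card_iff_ne_bot]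
          exact hker
        have h3 := Nat.card_pos (α := P ⧸ ρ.ker)
        nlinarith
      let φ : P →* P ⧸ ρ.ker := QuotientGroup.mk' ρ.ker
      have hφ : Function.Surjective φ := QuotientGroup.mk'_surjective _
      let ρ' : (P ⧸ ρ.ker) →* Module.End ℤ_[p] M := QuotientGroup.lift ρ.ker ρ (fun _ h => h)
      have hcomp : ρ'.comp φ = ρ := by
        ext g x
        rfl
      have hU' : IsU ρ' := IsU.of_comp hφ (by rw [hcomp]; exact hU)
      have := (ih (P ⧸ ρ.ker) hcard (hP.to_quotient _) M htf ρ' hU').of_comp hφ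
      rwa [hcomp] at this
    have hinj : Function.Injective ρ := (MonoidHom.ker_eq_bot_iff ρ).1 hker
    by_cases hcyc : IsCyclic P
    · exact hasMono_of_cyclic hP htf hU hinj
    obtain ⟨z, y, hz, hz1, hzp, hyp, hyz, hcomm⟩ := exists_pair p hp2 (Nat.card P) P le_rfl hP hcyc
    have hzc : ∀ g, g * z = z * g := Subgroup.mem_center_iff.1 hz
    have hrz : ∀ g : P, g ≠ 1 → ρ g ≠ 1 := fun g hg h => hg (hinj (by rw [h, map_one]))
    have hcp : ∀ (g : P), (∀ h, h * g = g * h) → g ^ p = 1 → g ≠ 1 → ∀ x,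
        ∑ j ∈ Finset.range p, ρ (g ^ j) x = 0 := fun g hg hgp hg1 x =>
      central_norm hP htf hU hg hgp (hrz g hg1) x
    have hcen : ∀ c ∈ Subgroup.zpowers z, ∀ g, g * c = c * g := by
      rintro _ ⟨k, rfl⟩ g
      have : Commute g z := hzc g
      exact (this.zpow_right k).eq
    -- the commutator map
    let f : P →* P := MonoidHom.mk' (fun u => y⁻¹ * (u * y * u⁻¹)) (by
      intro u v
      have h1 := hcen _ (hcomm v)
      have h2 : y⁻¹ * (v * y * v⁻¹) = v * y * v⁻¹ * y⁻¹ := by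
        calc y⁻¹ * (v * y * v⁻¹) = y⁻¹ * (v * y * v⁻¹ * y⁻¹) * y := by group
          _ = v * y * v⁻¹ * y⁻¹ := by rw [h1 y⁻¹]; group
      have h4 := h1 u
      calc y⁻¹ * (u * v * y * (u * v)⁻¹) = y⁻¹ * (u * (v * y * v⁻¹ * y⁻¹) * y * u⁻¹) := by group
        _ = y⁻¹ * (v * y * v⁻¹ * y⁻¹) * (u * y * u⁻¹) := by rw [h4]; group
        _ = (v * y * v⁻¹ * y⁻¹) * (y⁻¹ * (u * y * u⁻¹)) := by rw [h1 y⁻¹]; group
        _ = (y⁻¹ * (u * y * u⁻¹)) * (v * y * v⁻¹ * y⁻¹) := by
          rw [h1 (y⁻¹ * (u * y * u⁻¹))]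
        _ = _ := by rw [h2])
    have hf : ∀ u, f u = y⁻¹ * (u * y * u⁻¹) := fun u => rfl
    have hfz : ∀ u, f u ∈ Subgroup.zpowers z := by
      intro u
      have h1 := hcen _ (hcomm u) y⁻¹
      have h2 : f u = u * y * u⁻¹ * y⁻¹ := by
        rw [hf]
        calc y⁻¹ * (u * y * u⁻¹) = y⁻¹ * (u * y * u⁻¹ * y⁻¹) * y := by group
          _ = u * y * u⁻¹ * y⁻¹ := by rw [h1]; group
      rw [h2]
      exact hcomm u
    -- `y` is not central
    have hync : ∃ u, f u ≠ 1 := by
      by_contra hcon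
      push Not at hcon
      have hyc : ∀ u, u * y = y * u := by
        intro u
        have := hcon u
        rw [hf, inv_mul_eq_one, eq_mul_inv_iff_mul_eq] at this
        exact this.symm
      have hE : ∀ m x, EE ρ z y m x = 0 := by
        intro m x
        rw [EE, LinearMap.sum_apply]
        have hc : Commute y (z ^ m) := by
          have : Commute y z := hzc y
          exact this.pow_right m
        apply hcp
        · intro h
          have h1 : h * z ^ m = z ^ m * h := hcen _ (Subgroup.npow_mem_zpowers z m) h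
          rw [← mul_assoc, hyc, mul_assoc, h1, mul_assoc]
        · rw [hc.mul_pow, hyp, ← pow_mul, mul_comm, pow_mul, hzp, one_pow, mul_one]
        · intro h
          apply hyz
          rw [mul_eq_one_iff_eq_inv] at h
          rw [h]
          exact (Subgroup.zpowers z).inv_mem (Subgroup.npow_mem_zpowers z m)
      obtain ⟨x, hx⟩ := exists_ne (0 : M)
      have h1 : ∑ m ∈ Finset.range p, EE ρ z y m x = (p : ℤ_[p]) • x := by
        have h1 : ∀ m, EE ρ z y m x =
            ∑ j ∈ Finset.range p, ρ (y ^ j) (ρ ((z ^ j) ^ m) x) := by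
          intro m
          rw [EE, LinearMap.sum_apply]
          apply Finset.sum_congr rfl
          intro j _
          have hyz : Commute y (z ^ m) := by
            have : Commute y z := hzc y
            exact this.pow_right m
          rw [hyz.mul_pow, map_mul, Module.End.mul_apply, ← pow_mul, ← pow_mul, mul_comm m]
        simp only [h1]
        rw [Finset.sum_comm]
        have hpos := hp.out.pos
        rw [Finset.sum_eq_single_of_mem 0 (Finset.mem_range.2 hpos)]
        · simp [Nat.cast_smul_eq_nsmul]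
        · intro j hj hj0
          rw [← map_sum, hcp (z ^ j) (fun h => hcen _ (Subgroup.npow_mem_zpowers z j) h) (by
            rw [← pow_mul, mul_comm, pow_mul, hzp, one_pow]) (by
            intro h
            have h1 : orderOf z = p := orderOf_eq_prime hzp hz1
            have h2 := orderOf_dvd_of_pow_eq_one h
            rw [h1] at h2
            exact absurd (Nat.le_of_dvd (Nat.pos_of_ne_zero hj0) h2)
              (not_le.2 (Finset.mem_range.1 hj))) x, map_zero]
      rw [Finset.sum_congr rfl fun m _ => hE m x, Finset.sum_const_zero] at h1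
      rcases htf _ _ h1.symm with h | h
      · exact hp0 h
      · exact hx h
    obtain ⟨u, hu⟩ := hync
    have hordz : orderOf z = p := orderOf_eq_prime hzp hz1
    obtain ⟨u1, hu1⟩ : ∃ u1, f u1 = z := by
      obtain ⟨k, hk⟩ := hfz u
      simp only at hk
      have hcop : IsCoprime k (p : ℤ) := by
        rw [Int.isCoprime_iff_gcd_eq_one, ← Int.natAbs_natCast p]
        have : Nat.Coprime k.natAbs p := by
          rw [Nat.coprime_comm, hp.out.coprime_iff_not_dvd]
          intro hdvd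
          apply hu
          rw [← hk, ← orderOf_dvd_iff_zpow_eq_one, hordz]
          exact Int.natCast_dvd.2 hdvd
        simpa [Int.gcd] using this
      obtain ⟨a, c, hac⟩ := hcop
      refine ⟨u ^ a, ?_⟩
      rw [map_zpow, ← hk, ← zpow_mul]
      have : z ^ (k * a) = z ^ (a * k + c * p) := by
        rw [zpow_add, mul_comm c, zpow_mul z p c, zpow_natCast, hzp, one_zpow, mul_one, mul_comm]
      rw [this, hac, zpow_one]
    have D : StepData ρ z y u1 f := by
      refine ⟨?_, hzc, hzp, hz1, hyp, ?_, hu1, ?_⟩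
      · intro u
        rw [hf]; group
      · intro u
        have h1 : f u ∈ Submonoid.powers z := mem_powers_iff_mem_zpowers.2 (hfz u)
        obtain ⟨k, hk⟩ := h1
        refine ⟨k % p, Nat.mod_lt _ hp.out.pos, ?_⟩
        rw [← hk]
        simp only
        rw [← hordz, pow_mod_orderOf]
      · intro m hm x
        apply hcp
        · exact fun h => hcen _ (Subgroup.npow_mem_zpowers z m) h
        · rw [← pow_mul, mul_comm, pow_mul, hzp, one_pow]
        · exact hm
    have hcard : Nat.card f.ker ≤ n := by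
      by_contra hcon
      have h1 := Subgroup.card_le_card_group f.ker
      have h2 : f.ker = ⊤ := Subgroup.eq_top_of_card_eq _ (by omega)
      have h3 : u ∈ f.ker := by rw [h2]; trivial
      exact hu h3
    have hnt : Nontrivial (M0 ρ y) := by
      by_contra hcon
      rw [not_nontrivial_iff_subsingleton] at hcon
      obtain ⟨x, hx⟩ := exists_ne (0 : M)
      have h1 := D.p_smul x
      have h2 : ∀ w, EE ρ z y 0 w = 0 := by
        intro w
        have h3 : e0 D w = 0 := Subsingleton.elim _ _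
        rw [← e0_apply D, h3]
        rfl
      simp only [h2, map_zero, Finset.sum_const_zero] at h1
      rcases htf _ _ h1 with h | h
      · exact hp0 h
      · exact hx h
    have htf0 : ∀ (c : ℤ_[p]) (x : M0 ρ y), c • x = 0 → c = 0 ∨ x = 0 := by
      intro c x h
      have h1 := congrArg Subtype.val h
      rcases htf c (x : M) h1 with h | h
      · exact Or.inl h
      · exact Or.inr (Subtype.ext h)
    exact hasMono_of_rho0 D (ih f.ker hcard (hP.to_subgroup _) (M0 ρ y) htf0 (rho0 D)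
      (isU_rho0 htf D hU))

end Pool.Agent.Helper67.Coclass
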