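import Pool.Agent.Helper11.Coclass.Defs
import Pool.Agent.Helper67.Coclass.Mono
import Pool.Agent.Helper67.Coclass.Cyc

set_option autoImplicit false

noncomputable section

namespace Pool.Agent.Helper67.Coclass

open Pool.Agent.Helper11.Coclass

variable {p : ℕ} [hp : Fact p.Prime]

section main

variable {P : Type*} [Group P] [Fintype P] {M : Type*} [AddCommGroup M] [Module ℤ_[p] M]

/-- The monomial data, in fields. -/
structure MonoData (ρ : P →* Module.End ℤ_[p] M) (H : Subgroup P) (b : ℕ)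
    (lam : P → ZMod (p ^ b)) (h0 : P) (v0 : M) (π : M →ₗ[ℤ_[p]] M) (N N' : ℕ) : Prop where
  hb : 1 ≤ b
  hadd : ∀ g ∈ H, ∀ h ∈ H, lam (g * h) = lam g + lam h
  hh0 : h0 ∈ H
  hlam0 : lam h0 = 1
  hv0 : v0 ≠ 0
  hact : ∀ h ∈ H, ρ h v0 = ρ (h0 ^ (lam h).val) v0
  hsum : ∑ j ∈ Finset.range p, ρ (h0 ^ (j * p ^ (b - 1))) v0 = 0
  hπ : ∀ h ∈ H, π (ρ h v0) = (p : ℤ_[p]) ^ N • ρ h v0
  hπ0 : ∀ g, g ∉ H → π (ρ g v0) = 0
  hF : ∀ v, (p : ℤ_[p]) ^ N' • v ∈ Submodule.span ℤ_[p] {w | ∃ g, w = ρ g v0}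

/-- Evaluation of a function on the orbit of `v0`. -/
def Psi (ρ : P →* Module.End ℤ_[p] M) (v0 : M) : (P → ℤ_[p]) →ₗ[ℤ_[p]] M :=
  ∑ g, (LinearMap.proj g).smulRight (ρ g v0)

theorem Psi_apply (ρ : P →* Module.End ℤ_[p] M) (v0 : M) (ξ : P → ℤ_[p]) :
    Psi ρ v0 ξ = ∑ g, ξ g • ρ g v0 := by
  simp [Psi]

/-- Translation of functions. -/
def act (u : P) (ξ : P → ℤ_[p]) : P → ℤ_[p] := fun g => ξ (u⁻¹ * g)

theorem Psi_act (ρ : P →* Module.End ℤ_[p] M) (v0 : M) (u : P) (ξ : P → ℤ_[p]) :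
    Psi ρ v0 (act u ξ) = ρ u (Psi ρ v0 ξ) := by
  rw [Psi_apply, Psi_apply, map_sum]
  symm
  apply Fintype.sum_equiv (Equiv.mulLeft u)
  intro g
  rw [map_smul, Equiv.coe_mulLeft, act, inv_mul_cancel_left, map_mul, Module.End.mul_apply]

open Classical in
/-- Sums over cosets modulo `p`. -/
def Ehat (p : ℕ) [Fact p.Prime] (H : Subgroup P) :
    (P → ℤ_[p]) →ₛₗ[(PadicInt.toZMod : ℤ_[p] →+* ZMod p)] (P ⧸ H → ZMod p) where
  toFun ξ C := ∑ g ∈ Finset.univ.filter (fun g : P => (g : P ⧸ H) = C), PadicInt.toZMod (ξ g)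
  map_add' ξ η := by
    funext C
    simp only [Pi.add_apply, map_add]
    rw [Finset.sum_add_distrib]
  map_smul' c ξ := by
    funext C
    simp only [Pi.smul_apply, smul_eq_mul, map_mul]
    rw [Finset.mul_sum]

open Classical in
theorem Ehat_apply (H : Subgroup P) (ξ : P → ℤ_[p]) (C : P ⧸ H) :
    Ehat p H ξ C = ∑ g ∈ Finset.univ.filter (fun g : P => (g : P ⧸ H) = C),
      PadicInt.toZMod (ξ g) := rfl

theorem Ehat_act (H : Subgroup P) (u : P) (ξ : P → ℤ_[p]) :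
    Ehat p H (act u ξ) = fun C => Ehat p H ξ (u⁻¹ • C) := by
  classical
  funext C
  rw [Ehat_apply, Ehat_apply, Finset.sum_filter, Finset.sum_filter]
  symm
  apply Fintype.sum_equiv (Equiv.mulLeft u)
  intro g
  rw [Equiv.coe_mulLeft, act, inv_mul_cancel_left]
  have : ((g : P ⧸ H) = u⁻¹ • C) ↔ ((u * g : P) : P ⧸ H) = C := by
    rw [eq_inv_smul_iff]
    rfl
  simp only [this]

/-- Coset representatives. -/
def rep (H : Subgroup P) (C : P ⧸ H) : P := Quotient.out C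

omit [Fintype P] in
theorem rep_spec (H : Subgroup P) (C : P ⧸ H) : ((rep H C : P) : P ⧸ H) = C :=
  Quotient.out_eq' C

omit [Fintype P] in
theorem rep_inv_mul_mem (H : Subgroup P) {C : P ⧸ H} {g : P} :
    (rep H C)⁻¹ * g ∈ H ↔ (g : P ⧸ H) = C := by
  rw [← QuotientGroup.eq, rep_spec, eq_comm]

theorem Ehat_surjective (H : Subgroup P) : Function.Surjective (Ehat p H) := by
  classical
  intro w
  refine ⟨fun g => if g = rep H (g : P ⧸ H) then ((w (g : P ⧸ H)).val : ℤ_[p]) else 0, ?_⟩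
  funext C
  rw [Ehat_apply, Finset.sum_eq_single_of_mem (rep H C)]
  · simp only [rep_spec, if_true]
    rw [map_natCast, ZMod.natCast_zmod_val]
  · simp [rep_spec]
  · intro g hg hne
    rw [Finset.mem_filter] at hg
    rw [if_neg, map_zero]
    intro h
    rw [hg.2] at h
    exact hne h

variable {ρ : P →* Module.End ℤ_[p] M} {H : Subgroup P} {b : ℕ} {lam : P → ZMod (p ^ b)}
  {h0 : P} {v0 : M} {π : M →ₗ[ℤ_[p]] M} {N N' : ℕ}

theorem pow_p_smul_eq_zero (htf : ∀ (c : ℤ_[p]) (x : M), c • x = 0 → c = 0 ∨ x = 0) {n : ℕ}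
    {x : M} (h : (p : ℤ_[p]) ^ n • x = 0) : x = 0 := by
  rcases htf _ _ h with h | h
  · exact absurd h (pow_ne_zero n (by exact_mod_cast hp.out.ne_zero))
  · exact h

open Classical in
theorem ker_lemma [Module.Finite ℤ_[p] M] (hp2 : p ≠ 2)
    (htf : ∀ (c : ℤ_[p]) (x : M), c • x = 0 → c = 0 ∨ x = 0)
    (D : MonoData ρ H b lam h0 v0 π N N') {ξ : P → ℤ_[p]} (hξ : Psi ρ v0 ξ = 0) (C : P ⧸ H) :
    (p : ℤ_[p]) ∣ ∑ g ∈ Finset.univ.filter (fun g : P => (g : P ⧸ H) = C), ξ g ∧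
    (p : ℤ_[p]) ∣ ∑ g ∈ Finset.univ.filter (fun g : P => (g : P ⧸ H) = C),
      ξ g * ((lam ((rep H C)⁻¹ * g)).val : ℤ_[p]) := by
  have h1 : ∑ g, ξ g • π (ρ ((rep H C)⁻¹ * g) v0) = 0 := by
    have h2 := congrArg (fun x => π (ρ (rep H C)⁻¹ x)) hξ
    simp only [map_zero] at h2
    rw [Psi_apply, map_sum, map_sum] at h2
    rw [← h2]
    apply Finset.sum_congr rfl
    intro g _
    rw [map_smul, map_smul, map_mul, Module.End.mul_apply]
  have h2 : ∀ g, ξ g • π (ρ ((rep H C)⁻¹ * g) v0) =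
      if (g : P ⧸ H) = C then (p : ℤ_[p]) ^ N • (ξ g •
        ((ρ h0) ^ (lam ((rep H C)⁻¹ * g)).val) v0) else 0 := by
    intro g
    split_ifs with h
    · have h3 := rep_inv_mul_mem H |>.2 h
      rw [D.hπ _ h3, D.hact _ h3, map_pow, smul_comm]
    · have h3 : (rep H C)⁻¹ * g ∉ H := fun h' => h (rep_inv_mul_mem H |>.1 h')
      rw [D.hπ0 _ h3, smul_zero]
  rw [Finset.sum_congr rfl fun g _ => h2 g, ← Finset.sum_filter, ← Finset.smul_sum] at h1
  have h3 := pow_p_smul_eq_zero htf h1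
  refine two_congr hp2 htf (ρ h0) D.hv0 D.hb ?_ _ ξ _ h3
  have := D.hsum
  simp only [map_pow] at this
  exact this

theorem toZMod_eq_zero_of_dvd {a : ℤ_[p]} (h : (p : ℤ_[p]) ∣ a) :
    (PadicInt.toZMod a : ZMod p) = 0 := by
  obtain ⟨c, rfl⟩ := h
  rw [map_mul, map_natCast, ZMod.natCast_self, zero_mul]

theorem Ehat_eq_zero [Module.Finite ℤ_[p] M] (hp2 : p ≠ 2)
    (htf : ∀ (c : ℤ_[p]) (x : M), c • x = 0 → c = 0 ∨ x = 0)
    (D : MonoData ρ H b lam h0 v0 π N N') {ξ : P → ℤ_[p]} (hξ : Psi ρ v0 ξ = 0) :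
    Ehat p H ξ = 0 := by
  classical
  funext C
  rw [Ehat_apply, ← map_sum]
  exact toZMod_eq_zero_of_dvd (ker_lemma hp2 htf D hξ C).1

/-- The lattice attached to an invariant subspace. -/
def Lat (ρ : P →* Module.End ℤ_[p] M) (v0 : M) (H : Subgroup P)
    (W : Submodule (ZMod p) (P ⧸ H → ZMod p)) : Submodule ℤ_[p] M :=
  (W.comap (Ehat p H)).map (Psi ρ v0)

theorem stable_Lat (W : Submodule (ZMod p) (P ⧸ H → ZMod p))
    (hW : ∀ (g : P), ∀ f ∈ W, (fun ω => f (g⁻¹ • ω)) ∈ W) : Stable ρ (Lat ρ v0 H W) := by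
  rintro u _ ⟨ξ, hξ, rfl⟩
  refine ⟨act u ξ, ?_, Psi_act ρ v0 u ξ⟩
  have h1 : Ehat p H ξ ∈ W := hξ
  change Ehat p H (act u ξ) ∈ W
  rw [Ehat_act]
  exact hW u _ h1

theorem mem_range_Psi (D : MonoData ρ H b lam h0 v0 π N N') (x : M) :
    ∃ ξ, Psi ρ v0 ξ = (p : ℤ_[p]) ^ N' • x := by
  classical
  have h1 : Submodule.span ℤ_[p] {w | ∃ g, w = ρ g v0} ≤ LinearMap.range (Psi ρ v0) := by
    apply Submodule.span_le.2
    rintro _ ⟨g, rfl⟩
    refine ⟨Pi.single g 1, ?_⟩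
    rw [Psi_apply, Finset.sum_eq_single_of_mem g (Finset.mem_univ g)]
    · simp
    · intro h _ hne
      rw [Pi.single_eq_of_ne hne, zero_smul]
  exact h1 (D.hF x)

theorem finIdx_Lat (D : MonoData ρ H b lam h0 v0 π N N')
    (W : Submodule (ZMod p) (P ⧸ H → ZMod p)) : FinIdx (Lat ρ v0 H W) := by
  refine ⟨N' + 1, fun x => ?_⟩
  obtain ⟨ξ, hξ⟩ := mem_range_Psi D x
  refine ⟨(p : ℤ_[p]) • ξ, ?_, ?_⟩
  · change Ehat p H ((p : ℤ_[p]) • ξ) ∈ W
    have : Ehat p H ((p : ℤ_[p]) • ξ) = 0 := by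
      rw [map_smulₛₗ, map_natCast, ZMod.natCast_self, zero_smul]
    rw [this]
    exact W.zero_mem
  · rw [map_smul, hξ, smul_smul, pow_succ']

theorem Lat_le_iff [Module.Finite ℤ_[p] M] (hp2 : p ≠ 2)
    (htf : ∀ (c : ℤ_[p]) (x : M), c • x = 0 → c = 0 ∨ x = 0)
    (D : MonoData ρ H b lam h0 v0 π N N') {W1 W2 : Submodule (ZMod p) (P ⧸ H → ZMod p)}
    (h : Lat ρ v0 H W1 ≤ Lat ρ v0 H W2) : W1 ≤ W2 := by
  intro w hw
  obtain ⟨ξ, rfl⟩ := Ehat_surjective (p := p) H w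
  have h1 : Psi ρ v0 ξ ∈ Lat ρ v0 H W1 := ⟨ξ, hw, rfl⟩
  obtain ⟨η, hη, hη'⟩ := h h1
  have h2 : Psi ρ v0 (ξ - η) = 0 := by rw [map_sub, hη', sub_self]
  have h3 := Ehat_eq_zero hp2 htf D h2
  rw [map_sub, sub_eq_zero] at h3
  rw [h3]
  exact hη

/-- The permutation module is uniserial. -/
theorem uniserialPerm [Module.Finite ℤ_[p] M] (hp2 : p ≠ 2) (hP : IsPGroup p P)
    (htf : ∀ (c : ℤ_[p]) (x : M), c • x = 0 → c = 0 ∨ x = 0) (hU : IsU ρ)
    (D : MonoData ρ H b lam h0 v0 π N N') : UniserialPerm p P (P ⧸ H) := by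
  intro A B hA hB
  rcases total_of_isU hP hU (stable_Lat (ρ := ρ) (v0 := v0) A hA) (finIdx_Lat D A)
    (stable_Lat (ρ := ρ) (v0 := v0) B hB) (finIdx_Lat D B) with h | h
  · exact Or.inl (Lat_le_iff hp2 htf D h)
  · exact Or.inr (Lat_le_iff hp2 htf D h)

/-- Reduction modulo `p`. -/
def kap (p b : ℕ) (hb : 1 ≤ b) : ZMod (p ^ b) →+* ZMod p :=
  ZMod.castHom (dvd_pow_self p (by omega)) (ZMod p)

theorem kap_apply (hb : 1 ≤ b) (a : ZMod (p ^ b)) : kap p b hb a = (a.val : ZMod p) := by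
  have : NeZero (p ^ b) := ⟨pow_ne_zero _ hp.out.ne_zero⟩
  rw [kap, ZMod.castHom_apply, ZMod.natCast_val]

/-- The second functional. -/
def sig (H : Subgroup P) (lam : P → ZMod (p ^ b)) (hb : 1 ≤ b) :
    (P → ℤ_[p]) →ₛₗ[(PadicInt.toZMod : ℤ_[p] →+* ZMod p)] ZMod p where
  toFun ξ := ∑ g, PadicInt.toZMod (ξ g) * kap p b hb (lam ((rep H (g : P ⧸ H))⁻¹ * g))
  map_add' ξ η := by
    simp only [Pi.add_apply, map_add, add_mul]
    rw [Finset.sum_add_distrib]
  map_smul' c ξ := by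
    simp only [Pi.smul_apply, smul_eq_mul, map_mul, mul_assoc]
    rw [Finset.mul_sum]

theorem sig_apply (hb : 1 ≤ b) (ξ : P → ℤ_[p]) : sig H lam hb ξ =
    ∑ g, PadicInt.toZMod (ξ g) * kap p b hb (lam ((rep H (g : P ⧸ H))⁻¹ * g)) := rfl

theorem sig_eq_zero [Module.Finite ℤ_[p] M] (hp2 : p ≠ 2)
    (htf : ∀ (c : ℤ_[p]) (x : M), c • x = 0 → c = 0 ∨ x = 0)
    (D : MonoData ρ H b lam h0 v0 π N N') {ξ : P → ℤ_[p]} (hξ : Psi ρ v0 ξ = 0) :
    sig H lam D.hb ξ = 0 := by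
  classical
  rw [sig_apply, ← Finset.sum_fiberwise Finset.univ (fun g : P => (g : P ⧸ H))]
  apply Finset.sum_eq_zero
  intro C _
  have h1 := toZMod_eq_zero_of_dvd (ker_lemma hp2 htf D hξ C).2
  rw [map_sum] at h1
  rw [← h1]
  apply Finset.sum_congr rfl
  intro g hg
  rw [Finset.mem_filter] at hg
  rw [map_mul, map_natCast, kap_apply, hg.2]

theorem sig_act (D : MonoData ρ H b lam h0 v0 π N N') [Fintype (P ⧸ H)] (u : P) (ξ : P → ℤ_[p]) :
    sig H lam D.hb (act u ξ) = sig H lam D.hb ξ +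
      ∑ C : P ⧸ H, Ehat p H ξ C *
        kap p b D.hb (lam ((rep H (u • C))⁻¹ * (u * rep H C))) := by
  classical
  have h1 : sig H lam D.hb (act u ξ) = ∑ g, PadicInt.toZMod (ξ g) *
      kap p b D.hb (lam ((rep H (u • (g : P ⧸ H)))⁻¹ * (u * g))) := by
    rw [sig_apply]
    symm
    apply Fintype.sum_equiv (Equiv.mulLeft u)
    intro g
    rw [Equiv.coe_mulLeft, act, inv_mul_cancel_left]
    rfl
  have h2 : ∀ g : P, lam ((rep H (u • (g : P ⧸ H)))⁻¹ * (u * g)) =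
      lam ((rep H (g : P ⧸ H))⁻¹ * g) +
      lam ((rep H (u • (g : P ⧸ H)))⁻¹ * (u * rep H (g : P ⧸ H))) := by
    intro g
    have h3 : (rep H (g : P ⧸ H))⁻¹ * g ∈ H := (rep_inv_mul_mem H).2 rfl
    have h4 : (rep H (u • (g : P ⧸ H)))⁻¹ * (u * rep H (g : P ⧸ H)) ∈ H := by
      rw [rep_inv_mul_mem]
      change u • ((rep H (g : P ⧸ H) : P) : P ⧸ H) = _
      rw [rep_spec]
    rw [add_comm, ← D.hadd _ h4 _ h3]
    congr 1
    group
  rw [h1, sig_apply]
  have h5 : ∑ C : P ⧸ H, Ehat p H ξ C *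
        kap p b D.hb (lam ((rep H (u • C))⁻¹ * (u * rep H C))) =
      ∑ g, PadicInt.toZMod (ξ g) *
        kap p b D.hb (lam ((rep H (u • (g : P ⧸ H)))⁻¹ * (u * rep H (g : P ⧸ H)))) := by
    rw [← Finset.sum_fiberwise Finset.univ (fun g : P => (g : P ⧸ H))]
    apply Finset.sum_congr rfl
    intro C _
    rw [Ehat_apply, Finset.sum_mul]
    apply Finset.sum_congr rfl
    intro g hg
    rw [Finset.mem_filter] at hg
    rw [hg.2]
  rw [h5, ← Finset.sum_add_distrib]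
  apply Finset.sum_congr rfl
  intro g _
  rw [h2 g, map_add, mul_add]

/-- The homomorphism attached to the data. -/
def lamHom (D : MonoData ρ H b lam h0 v0 π N N') : H →* Multiplicative (ZMod (p ^ b)) :=
  MonoidHom.mk' (fun h => Multiplicative.ofAdd (lam h)) (fun g h => by
    rw [Subgroup.coe_mul, D.hadd _ g.2 _ h.2, ofAdd_add])

omit [Fintype P] in
theorem lamHom_apply (D : MonoData ρ H b lam h0 v0 π N N') (h : H) :
    lamHom D h = Multiplicative.ofAdd (lam h) := rfl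

theorem transfer_lamHom (D : MonoData ρ H b lam h0 v0 π N N') [Fintype (P ⧸ H)] (u : P) :
    Multiplicative.toAdd (MonoidHom.transfer (lamHom D) u) =
      ∑ C : P ⧸ H, lam ((rep H (u • C))⁻¹ * (u * rep H C)) := by
  classical
  have h1 := MonoidHom.transfer_def (lamHom D)
    (⟨Set.range (rep H), Subgroup.isComplement_range_left (rep_spec H)⟩ : H.LeftTransversal) u
  have h2 : ∀ q : P ⧸ H, ((Subgroup.IsComplement.leftQuotientEquiv
      (Subgroup.isComplement_range_left (rep_spec H)) q : Set.range (rep H)) : P) = rep H q :=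
    fun q => Subgroup.IsComplement.leftQuotientEquiv_apply (rep_spec H) q
  rw [h1, Subgroup.leftTransversals.diff, toAdd_prod]
  have hF : ∀ q : P ⧸ H, lam ((rep H q)⁻¹ * (u * rep H (u⁻¹ • q))) =
      (fun C => lam ((rep H (u • C))⁻¹ * (u * rep H C))) (u⁻¹ • q) := by
    intro q
    simp only [smul_inv_smul]
  rw [← Fintype.sum_equiv (MulAction.toPerm (u⁻¹ : P))
    (fun q : P ⧸ H => lam ((rep H q)⁻¹ * (u * rep H (u⁻¹ • q)))) _ hF]
  refine Finset.sum_bij' (fun q _ => q) (fun q _ => q) (by simp) (by simp) (by simp) (by simp) ?_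
  intro q _
  rw [lamHom_apply, toAdd_ofAdd]
  simp only [Subgroup.smul_apply_eq_smul_apply_inv_smul, h2, smul_eq_mul]

theorem exists_transfer_ne [Module.Finite ℤ_[p] M] (hp2 : p ≠ 2) (hP : IsPGroup p P)
    (htf : ∀ (c : ℤ_[p]) (x : M), c • x = 0 → c = 0 ∨ x = 0) (hU : IsU ρ)
    (D : MonoData ρ H b lam h0 v0 π N N') :
    ∃ u : P, kap p b D.hb (Multiplicative.toAdd (MonoidHom.transfer (lamHom D) u)) ≠ 0 := by
  classical
  have : Fintype (P ⧸ H) := Fintype.ofFinite _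
  by_contra hcon
  push Not at hcon
  -- constants
  let Wc : Submodule (ZMod p) (P ⧸ H → ZMod p) := Submodule.span (ZMod p) {fun _ => 1}
  have hWc : ∀ w ∈ Wc, ∃ c : ZMod p, w = fun _ => c := by
    intro w hw
    obtain ⟨c, rfl⟩ := Submodule.mem_span_singleton.1 hw
    exact ⟨c, by funext _; simp⟩
  have hWinv : ∀ (g : P), ∀ f ∈ Wc, (fun ω => f (g⁻¹ • ω)) ∈ Wc := by
    intro g f hf
    obtain ⟨c, rfl⟩ := hWc f hf
    exact hf
  have hbot : ∀ (g : P), ∀ f ∈ (⊥ : Submodule (ZMod p) (P ⧸ H → ZMod p)),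
      (fun ω => f (g⁻¹ • ω)) ∈ (⊥ : Submodule (ZMod p) (P ⧸ H → ZMod p)) := by
    intro g f hf
    rw [Submodule.mem_bot] at hf ⊢
    rw [hf]
    rfl
  have hle : Lat ρ v0 H ⊥ ≤ Lat ρ v0 H Wc := by
    apply Submodule.map_mono
    intro x hx
    have : Ehat p H x = 0 := hx
    change Ehat p H x ∈ Wc
    rw [this]
    exact Wc.zero_mem
  have hne : Lat ρ v0 H ⊥ ≠ Lat ρ v0 H Wc := by
    intro heq
    have h1 := Lat_le_iff hp2 htf D heq.ge
    have h2 : (fun _ => 1 : P ⧸ H → ZMod p) ∈ Wc := Submodule.mem_span_singleton_self _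
    have h3 := h1 h2
    rw [Submodule.mem_bot] at h3
    have h4 := congrFun h3 ((1 : P) : P ⧸ H)
    exact one_ne_zero h4
  have hmax := le_comm_of_ne hP hU (stable_Lat (ρ := ρ) (v0 := v0) ⊥ hbot)
    (stable_Lat (ρ := ρ) (v0 := v0) Wc hWinv) (finIdx_Lat D Wc) hle hne
  -- every element of the commutator is `Psi ξ` with both functionals zero
  have hcomm : ∀ x ∈ comm ρ (Lat ρ v0 H Wc), ∃ ξ, Psi ρ v0 ξ = x ∧ sig H lam D.hb ξ = 0 := by
    intro x hx
    induction hx using Submodule.span_induction with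
    | mem x hx =>
      obtain ⟨u, _, ⟨ξ, hξ, rfl⟩, rfl⟩ := hx
      refine ⟨act u ξ - ξ, by rw [map_sub, Psi_act], ?_⟩
      have h1 : Ehat p H ξ ∈ Wc := hξ
      obtain ⟨c, hc⟩ := hWc _ h1
      rw [map_sub, sig_act D, add_sub_cancel_left, hc]
      simp only
      rw [← Finset.mul_sum, ← map_sum, ← transfer_lamHom D, hcon u, mul_zero]
    | zero => exact ⟨0, by simp, by simp⟩
    | add a b _ _ ha hb =>
      obtain ⟨ξ, h1, h2⟩ := ha
      obtain ⟨η, h3, h4⟩ := hb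
      exact ⟨ξ + η, by rw [map_add, h1, h3], by rw [map_add, h2, h4, add_zero]⟩
    | smul c a _ ha =>
      obtain ⟨ξ, h1, h2⟩ := ha
      exact ⟨c • ξ, by rw [map_smul, h1], by rw [map_smulₛₗ, h2, smul_zero]⟩
  -- the special element
  let g1 := rep H ((1 : P) : P ⧸ H)
  have hg1 : ((g1 : P) : P ⧸ H) = ((1 : P) : P ⧸ H) := rep_spec H _
  have hg1h : ((g1 * h0 : P) : P ⧸ H) = ((1 : P) : P ⧸ H) := by
    rw [← hg1, QuotientGroup.eq, mul_inv_rev, inv_mul_cancel_right]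
    exact H.inv_mem D.hh0
  have hlam1 : lam 1 = 0 := by
    have := D.hadd 1 H.one_mem 1 H.one_mem
    rw [mul_one] at this
    exact left_eq_add.1 this
  let ξ1 : P → ℤ_[p] := Pi.single (g1 * h0) 1 - Pi.single g1 1
  have hE : ∀ g : P, Ehat p H (Pi.single g 1) = Pi.single (g : P ⧸ H) 1 := by
    intro g
    funext C
    rw [Ehat_apply, Finset.sum_filter, Finset.sum_eq_single_of_mem g (Finset.mem_univ g)]
    · rw [Pi.single_eq_same, map_one]
      split_ifs with h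
      · rw [← h, Pi.single_eq_same]
      · rw [Pi.single_eq_of_ne (Ne.symm h)]
    · intro h _ hne
      rw [Pi.single_eq_of_ne hne, map_zero, ite_self]
  have hS : ∀ g : P, sig H lam D.hb (Pi.single g 1) =
      kap p b D.hb (lam ((rep H (g : P ⧸ H))⁻¹ * g)) := by
    intro g
    rw [sig_apply, Finset.sum_eq_single_of_mem g (Finset.mem_univ g)]
    · rw [Pi.single_eq_same, map_one, one_mul]
    · intro h _ hne
      rw [Pi.single_eq_of_ne hne, map_zero, zero_mul]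
  have hE1 : Ehat p H ξ1 = 0 := by
    simp only [ξ1]
    rw [map_sub, hE, hE, hg1h, hg1, sub_self]
  have hS1 : sig H lam D.hb ξ1 = 1 := by
    simp only [ξ1]
    rw [map_sub, hS, hS, hg1h, hg1]
    change kap p b D.hb (lam (g1⁻¹ * (g1 * h0))) - kap p b D.hb (lam (g1⁻¹ * g1)) = 1
    rw [inv_mul_cancel_left, inv_mul_cancel, hlam1, D.hlam0, map_one, map_zero, sub_zero]
  have hx1 : Psi ρ v0 ξ1 ∈ Lat ρ v0 H ⊥ := ⟨ξ1, hE1, rfl⟩
  obtain ⟨ξ2, h2, h2'⟩ := hcomm _ (hmax hx1)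
  have h3 : Psi ρ v0 (ξ1 - ξ2) = 0 := by rw [map_sub, h2, sub_self]
  have h4 := sig_eq_zero hp2 htf D h3
  rw [map_sub, hS1, h2', sub_zero] at h4
  exact one_ne_zero h4

theorem transfer_surjective [Module.Finite ℤ_[p] M] (hp2 : p ≠ 2) (hP : IsPGroup p P)
    (htf : ∀ (c : ℤ_[p]) (x : M), c • x = 0 → c = 0 ∨ x = 0) (hU : IsU ρ)
    (D : MonoData ρ H b lam h0 v0 π N N') :
    Function.Surjective (MonoidHom.transfer (lamHom D)) := by
  have hne : NeZero (p ^ b) := ⟨pow_ne_zero _ hp.out.ne_zero⟩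
  obtain ⟨u, hu⟩ := exists_transfer_ne hp2 hP htf hU D
  set t := Multiplicative.toAdd (MonoidHom.transfer (lamHom D) u) with ht
  have hunit : IsUnit t := by
    rw [← ZMod.natCast_zmod_val t, ZMod.isUnit_iff_coprime]
    apply Nat.Coprime.pow_right
    rw [Nat.coprime_comm, hp.out.coprime_iff_not_dvd]
    intro hdvd
    apply hu
    rw [kap_apply, (ZMod.natCast_eq_zero_iff _ _).2 hdvd]
  obtain ⟨s, hs⟩ := hunit
  intro y
  refine ⟨u ^ (Multiplicative.toAdd y * (s⁻¹ : (ZMod (p ^ b))ˣ)).val, ?_⟩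
  apply Multiplicative.toAdd.injective
  rw [map_pow, toAdd_pow, ← ht, nsmul_eq_mul, ZMod.natCast_zmod_val, ← hs, mul_assoc,
    Units.inv_mul, mul_one]

end main

/-- The commutator submodule as an additive closure. -/
theorem comm_toAddSubgroup {P M : Type*} [Group P] [AddCommGroup M] [Module ℤ_[p] M]
    (ρ : P →* Module.End ℤ_[p] M) (L : Submodule ℤ_[p] M) :
    (comm ρ L).toAddSubgroup = AddSubgroup.closure {y : M | ∃ g : P, ∃ x ∈ L, y = ρ g x - x} := by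
  apply le_antisymm
  · intro x hx
    have hx' : x ∈ comm ρ L := hx
    clear hx
    induction hx' using Submodule.span_induction with
    | mem x hx => exact AddSubgroup.subset_closure hx
    | zero => exact AddSubgroup.zero_mem _
    | add a b _ _ ha hb => exact AddSubgroup.add_mem _ ha hb
    | smul c a hca ha =>
      clear hca
      induction ha using AddSubgroup.closure_induction with
      | mem a ha =>
        obtain ⟨g, x, hx, rfl⟩ := ha
        exact AddSubgroup.subset_closure ⟨g, c • x, L.smul_mem c hx, by rw [map_smul, smul_sub]⟩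
      | zero => rw [smul_zero]; exact AddSubgroup.zero_mem _
      | add a b _ _ ha hb => rw [smul_add]; exact AddSubgroup.add_mem _ ha hb
      | neg a _ ha => rw [smul_neg]; exact AddSubgroup.neg_mem _ ha
  · rw [AddSubgroup.closure_le]
    rintro _ ⟨g, x, hx, rfl⟩
    exact mem_comm g hx

/-- Monomial form of uniserial lattices for `p`-groups, `p` odd. -/
theorem I2 (p : ℕ) [Fact p.Prime] (hp : p ≠ 2) (P : Type) [Group P] [Finite P]
    (hP : IsPGroup p P) (M : Type) [AddCommGroup M] [Module ℤ_[p] M] [DistribMulAction P M]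
    [SMulCommClass P ℤ_[p] M] (h : IsUniserialLattice p P M) :
    ∃ (H : Subgroup P) (b : ℕ) (lam : H →* Multiplicative (ZMod (p ^ b))), 1 ≤ b ∧
      Function.Surjective (MonoidHom.transfer lam) ∧
      (∀ g : P, (∀ x : P, ∃ hx : x⁻¹ * g * x ∈ H, lam ⟨x⁻¹ * g * x, hx⟩ = 1) → g = 1) ∧
      UniserialPerm p P (P ⧸ H) := by
  have := h.finite
  have := h.nontrivial
  have : Fintype P := Fintype.ofFinite P
  let ρ : P →* Module.End ℤ_[p] M := DistribMulAction.toModuleEnd ℤ_[p] M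
  have hρ : ∀ (g : P) (x : M), ρ g x = g • x := fun g x => rfl
  have hU : IsU ρ := by
    intro L hL hf
    have h1 := h.step L hL (finite_of_finIdx hf)
    have h2 := comm_toAddSubgroup ρ L
    rw [h2]
    exact h1
  obtain ⟨H, b, lam, h0, v0, π, N, N', hb, hadd, hh0, hlam0, hv0, hact, hsum, hπ, hπ0, hF⟩ :=
    hasMono hp (Nat.card P) P le_rfl hP M h.torsionFree ρ hU
  have D : MonoData ρ H b lam h0 v0 π N N' :=
    ⟨hb, hadd, hh0, hlam0, hv0, hact, hsum, hπ, hπ0, hF⟩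
  refine ⟨H, b, lamHom D, hb, ?_, ?_, uniserialPerm hp hP h.torsionFree hU D⟩
  · convert transfer_surjective hp hP h.torsionFree hU D
  · intro g hg
    apply h.faithful
    have h1 : ∀ x : P, ρ g (ρ x v0) = ρ x v0 := by
      intro x
      obtain ⟨hx, hx1⟩ := hg x
      rw [lamHom_apply] at hx1
      have hx2 : lam (x⁻¹ * g * x) = 0 := hx1
      have h3 := hact _ hx
      rw [hx2, ZMod.val_zero, pow_zero, map_one, Module.End.one_apply] at h3
      have h4 : ρ (g * x) v0 = ρ (x * (x⁻¹ * g * x)) v0 := by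
        congr 2
        group
      rw [← Module.End.mul_apply, ← map_mul, h4, map_mul, Module.End.mul_apply, h3]
    have h2 : ∀ w ∈ Submodule.span ℤ_[p] {w | ∃ g, w = ρ g v0}, ρ g w = w := by
      intro w hw
      induction hw using Submodule.span_induction with
      | mem w hw =>
        obtain ⟨x, rfl⟩ := hw
        exact h1 x
      | zero => rw [map_zero]
      | add a b _ _ ha hb => rw [map_add, ha, hb]
      | smul c a _ ha => rw [map_smul, ha]
    intro x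
    have h3 := h2 _ (hF x)
    rw [map_smul, ← sub_eq_zero, ← smul_sub] at h3
    have h4 := pow_p_smul_eq_zero h.torsionFree h3
    rw [sub_eq_zero] at h4
    exact h4

end Pool.Agent.Helper67.Coclass
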