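import Mathlib

set_option autoImplicit false

namespace Pool.Agent.Helper67.Coclass

open Subgroup

/-- Power formula for two elements whose commutator commutes with both. -/
theorem mul_pow_of_comm {G : Type*} [Group G] {a b c : G} (hc : b * a = a * b * c)
    (hac : Commute a c) (hbc : Commute b c) (n : ℕ) :
    (a * b) ^ n = a ^ n * b ^ n * c ^ (n * (n - 1) / 2) := by
  have hb : ∀ n : ℕ, b ^ n * a = a * b ^ n * c ^ n := by
    intro n
    induction n with
    | zero => simp
    | succ n ih =>
      calc b ^ (n + 1) * a = b ^ n * (b * a) := by rw [pow_succ, mul_assoc]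
        _ = b ^ n * a * b * c := by rw [hc]; group
        _ = a * b ^ n * c ^ n * b * c := by rw [ih]
        _ = a * b ^ n * (c ^ n * b) * c := by group
        _ = a * b ^ n * (b * c ^ n) * c := by rw [((hbc.pow_right n).eq)]
        _ = a * b ^ (n + 1) * c ^ (n + 1) := by rw [pow_succ, pow_succ]; group
  induction n with
  | zero => simp
  | succ n ih =>
    rw [pow_succ, ih, Nat.triangle_succ]
    set k := n * (n - 1) / 2
    have h1 : c ^ k * (a * b) = a * b * c ^ k := by
      have := (hac.mul_left hbc).pow_right k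
      exact this.eq.symm
    calc a ^ n * b ^ n * c ^ k * (a * b) = a ^ n * b ^ n * (c ^ k * (a * b)) := by group
      _ = a ^ n * (b ^ n * a) * b * c ^ k := by rw [h1]; group
      _ = a ^ n * a * b ^ n * (c ^ n * b) * c ^ k := by rw [hb]; group
      _ = a ^ n * a * b ^ n * (b * c ^ n) * c ^ k := by rw [((hbc.pow_right n).eq)]
      _ = a ^ (n + 1) * b ^ (n + 1) * c ^ (k + n) := by
        rw [pow_succ a, pow_succ b, pow_add, ((Commute.refl c).pow_pow k n).eq]; group

theorem mul_pow_prime {G : Type*} [Group G] {p : ℕ} (hodd : Odd p) {a b c : G}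
    (hc : b * a = a * b * c) (hac : Commute a c) (hbc : Commute b c) (hcp : c ^ p = 1) :
    (a * b) ^ p = a ^ p * b ^ p := by
  rw [mul_pow_of_comm hc hac hbc]
  obtain ⟨k, hk⟩ := hodd
  have : p * (p - 1) / 2 = p * k := by
    have : p - 1 = 2 * k := by omega
    rw [this, show p * (2 * k) = p * k * 2 by ring, Nat.mul_div_cancel _ (by norm_num)]
  rw [this, pow_mul, hcp, one_pow, mul_one]

/-- A non-cyclic finite `p`-group, `p` odd, has a central element `z` of order `p` and an element
`y` with `y ^ p = 1` outside `⟨z⟩` all of whose commutators lie in `⟨z⟩`. -/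
theorem exists_pair (p : ℕ) [hp : Fact p.Prime] (hp2 : p ≠ 2) : ∀ (n : ℕ) (P : Type) [Group P]
    [Finite P], Nat.card P ≤ n → IsPGroup p P → ¬ IsCyclic P →
    ∃ z y : P, z ∈ center P ∧ z ≠ 1 ∧ z ^ p = 1 ∧ y ^ p = 1 ∧ y ∉ zpowers z ∧
      ∀ u : P, u * y * u⁻¹ * y⁻¹ ∈ zpowers z := by
  have hodd : Odd p := hp.out.odd_of_ne_two hp2
  intro n
  induction n with
  | zero =>
    intro P _ _ hn
    have := Nat.card_pos (α := P)
    omega
  | succ n ih =>
    intro P _ _ hn hP hcyc
    have hnt : Nontrivial P := by
      by_contra h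
      rw [not_nontrivial_iff_subsingleton] at h
      exact hcyc inferInstance
    -- a central element of order p
    have hcnt : Nontrivial (center P) := hP.center_nontrivial
    have hdvd : p ∣ Nat.card (center P) := by
      obtain ⟨m, hm0, hm⟩ := ((hP.to_subgroup (center P)).nontrivial_iff_card).mp inferInstance
      exact hm ▸ dvd_pow_self _ (ne_of_gt hm0)
    obtain ⟨zc, hzc⟩ := exists_prime_orderOf_dvd_card' p hdvd
    obtain ⟨z, hz⟩ := zc
    have hzord : orderOf z = p := by
      rw [← hzc, Subgroup.orderOf_mk]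
    have hz1 : z ≠ 1 := by
      intro h
      rw [h, orderOf_one] at hzord
      exact hp.out.one_lt.ne hzord
    have hzp : z ^ p = 1 := by rw [← hzord]; exact pow_orderOf_eq_one z
    have hzcomm : ∀ u : P, u * z = z * u := fun u => Subgroup.mem_center_iff.mp hz u
    have hZle : zpowers z ≤ center P := by
      rw [Subgroup.zpowers_le]; exact hz
    have hZn : (zpowers z).Normal := by
      constructor
      intro w hw g
      have := Subgroup.mem_center_iff.mp (hZle hw) g
      rw [this]; simpa using hw
    have hZcard : Nat.card (zpowers z) = p := by rw [Nat.card_zpowers, hzord]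
    -- every nontrivial element of ⟨z⟩ generates it
    have hgen : ∀ w ∈ zpowers z, w ≠ 1 → ∀ x ∈ zpowers z, x ∈ zpowers w := by
      intro w hw hw1 x hx
      have h1 : zpowers w ≤ zpowers z := by rw [Subgroup.zpowers_le]; exact hw
      have h2 : Nat.card (zpowers w) = p := by
        have h3 : Nat.card (zpowers w) ∣ p := by
          rw [← hZcard]; exact Subgroup.card_dvd_of_le h1
        rcases (Nat.dvd_prime hp.out).mp h3 with h | h
        · rw [Nat.card_zpowers, orderOf_eq_one_iff] at h; exact absurd h hw1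
        · exact h
      have h4 : zpowers w = zpowers z :=
        Subgroup.eq_of_le_of_card_ge h1 (by rw [h2, hZcard])
      rw [h4]; exact hx
    have hZpow : ∀ w ∈ zpowers z, w ^ p = 1 := by
      intro w hw
      obtain ⟨k, rfl⟩ := Subgroup.mem_zpowers_iff.mp hw
      rw [← zpow_natCast, ← zpow_mul, mul_comm, zpow_mul, zpow_natCast, hzp, one_zpow]
    let Q := P ⧸ zpowers z
    have hQP : IsPGroup p Q := hP.to_quotient _
    have hcardQ : Nat.card Q ≤ n := by
      have h1 : Nat.card P = Nat.card Q * Nat.card (zpowers z) :=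
        Subgroup.card_eq_card_quotient_mul_card_subgroup _
      rw [hZcard] at h1
      have h2 : 0 < Nat.card Q := Nat.card_pos
      have h3 : 2 ≤ p := hp.out.two_le
      nlinarith
    have hmk : ∀ w : P, ((w : P) : Q) = 1 ↔ w ∈ zpowers z := fun w =>
      QuotientGroup.eq_one_iff w
    by_cases hQc : IsCyclic Q
    · obtain ⟨xq, hxq⟩ := hQc.exists_generator
      obtain ⟨x, rfl⟩ := QuotientGroup.mk_surjective xq
      have hdecomp : ∀ u : P, ∃ k : ℤ, ∃ w ∈ zpowers z, u = x ^ k * w := by
        intro u
        obtain ⟨k, hk⟩ := Subgroup.mem_zpowers_iff.mp (hxq (u : Q))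
        refine ⟨k, (x ^ k)⁻¹ * u, ?_, by group⟩
        rw [← hmk]
        rw [QuotientGroup.mk_mul, QuotientGroup.mk_inv, QuotientGroup.mk_zpow, hk]
        simp
      set m := orderOf ((x : P) : Q) with hm
      have hxm : x ^ m ∈ zpowers z := by
        rw [← hmk, QuotientGroup.mk_pow]; exact pow_orderOf_eq_one _
      have hxm1 : x ^ m = 1 := by
        by_contra hne
        apply hcyc
        refine ⟨x, fun u => ?_⟩
        obtain ⟨k, w, hw, rfl⟩ := hdecomp u
        have h1 := hgen _ hxm hne w hw
        have h2 : zpowers (x ^ m) ≤ zpowers x := by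
          rw [Subgroup.zpowers_le]; exact Subgroup.pow_mem _ (Subgroup.mem_zpowers x) m
        exact Subgroup.mul_mem _ (Subgroup.zpow_mem _ (Subgroup.mem_zpowers x) k) (h2 h1)
      obtain ⟨k, hk⟩ := (IsPGroup.iff_orderOf.mp hQP) ((x : P) : Q)
      have hk0 : k ≠ 0 := by
        rintro rfl
        rw [pow_zero] at hk
        have hx1 : x ∈ zpowers z := by
          rw [← hmk]; exact orderOf_eq_one_iff.mp hk
        apply hcyc
        refine ⟨z, fun u => ?_⟩
        obtain ⟨k, w, hw, rfl⟩ := hdecomp u
        exact Subgroup.mul_mem _ (Subgroup.zpow_mem _ hx1 k) hw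
      obtain ⟨j, rfl⟩ := Nat.exists_eq_succ_of_ne_zero hk0
      refine ⟨z, x ^ p ^ j, hz, hz1, hzp, ?_, ?_, ?_⟩
      · rw [← pow_mul, ← pow_succ, ← Nat.succ_eq_add_one, ← hk]; exact hxm1
      · rw [← hmk, QuotientGroup.mk_pow]
        intro h
        have h1 : p ^ (j + 1) ∣ p ^ j := by
          rw [← Nat.succ_eq_add_one, ← hk]; exact orderOf_dvd_of_pow_eq_one h
        have h2 := Nat.le_of_dvd (pow_pos hp.out.pos _) h1
        have h3 := Nat.pow_lt_pow_right hp.out.one_lt (Nat.lt_succ_self j)
        exact absurd h2 (not_le.mpr h3)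
      · intro u
        obtain ⟨k, w, hw, rfl⟩ := hdecomp u
        have h1 : ∀ v : P, v * w = w * v := fun v => Subgroup.mem_center_iff.mp (hZle hw) v
        have h2 : Commute (x ^ k * w) (x ^ p ^ j) := by
          apply Commute.mul_left
          · exact ((Commute.refl x).zpow_left k).pow_right _
          · exact (h1 _).symm
        have : x ^ k * w * x ^ p ^ j * (x ^ k * w)⁻¹ * (x ^ p ^ j)⁻¹ = 1 := by
          rw [h2.eq]; group
        rw [this]; exact Subgroup.one_mem _
    · obtain ⟨sq, tq, hsc, hs1, hsp, htp, hts, hcomm⟩ := ih Q hcardQ hQP hQc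
      obtain ⟨s, rfl⟩ := QuotientGroup.mk_surjective sq
      obtain ⟨t, rfl⟩ := QuotientGroup.mk_surjective tq
      have hs_not : s ∉ zpowers z := fun h => hs1 ((hmk s).mpr h)
      have hspZ : s ^ p ∈ zpowers z := by rw [← hmk, QuotientGroup.mk_pow]; exact hsp
      have htpZ : t ^ p ∈ zpowers z := by rw [← hmk, QuotientGroup.mk_pow]; exact htp
      have hsu : ∀ u : P, u * s * u⁻¹ * s⁻¹ ∈ zpowers z := by
        intro u
        rw [← hmk]
        have := Subgroup.mem_center_iff.mp hsc (u : Q)
        rw [QuotientGroup.mk_mul, QuotientGroup.mk_mul, QuotientGroup.mk_mul, this]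
        simp [QuotientGroup.mk_inv]
      by_cases hsp1 : s ^ p = 1
      · exact ⟨z, s, hz, hz1, hzp, hsp1, hs_not, hsu⟩
      · -- s ^ p generates ⟨z⟩
        have hgs : ∀ w ∈ zpowers z, ∃ m : ℤ, (s ^ p) ^ m = w := fun w hw =>
          Subgroup.mem_zpowers_iff.mp (hgen _ hspZ hsp1 w hw)
        obtain ⟨m, hm⟩ := hgs _ htpZ
        -- commutation of t and powers of s up to ⟨z⟩
        have hpowcomm : ∀ (k : ℤ) (v : P), ∃ c ∈ zpowers z, s ^ k * v = v * s ^ k * c := by
          intro k v
          refine ⟨(s ^ k)⁻¹ * v⁻¹ * (s ^ k) * v, ?_, by group⟩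
          rw [← hmk]
          have h1 : Commute ((s : P) : Q) ((v : P) : Q) :=
            (Subgroup.mem_center_iff.mp hsc (v : Q)).symm
          have h2 := h1.zpow_left k
          rw [QuotientGroup.mk_mul, QuotientGroup.mk_mul, QuotientGroup.mk_mul,
            QuotientGroup.mk_inv, QuotientGroup.mk_inv, QuotientGroup.mk_zpow]
          rw [mul_assoc, h2.eq]; group
        have hcen : ∀ c ∈ zpowers z, ∀ v : P, Commute v c := fun c hc v =>
          Subgroup.mem_center_iff.mp (hZle hc) v
        have hmulpow : ∀ (k : ℤ) (v : P), (v * s ^ k) ^ p = v ^ p * (s ^ k) ^ p := by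
          intro k v
          obtain ⟨c, hc, hce⟩ := hpowcomm k v
          exact mul_pow_prime hodd hce (hcen c hc v) (hcen c hc _) (hZpow c hc)
        have hy : (t * s ^ (-m)) ^ p = 1 := by
          rw [hmulpow, ← hm, ← zpow_natCast, ← zpow_natCast, ← zpow_mul, ← zpow_mul, ← zpow_add]
          rw [show (p : ℤ) * m + -m * (p : ℤ) = 0 by ring, zpow_zero]
        refine ⟨z, t * s ^ (-m), hz, hz1, hzp, hy, ?_, ?_⟩
        · intro h
          rw [← hmk, QuotientGroup.mk_mul, QuotientGroup.mk_zpow] at h
          apply hts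
          rw [Subgroup.mem_zpowers_iff]
          refine ⟨m, ?_⟩
          rw [zpow_neg, mul_inv_eq_one] at h
          exact h.symm
        · intro u
          set y := t * s ^ (-m) with hydef
          -- the image of the commutator
          have h1 : ((u * y * u⁻¹ * y⁻¹ : P) : Q) ∈ zpowers ((s : P) : Q) := by
            have h2 := hcomm (u : Q)
            have h3 : ((u * y * u⁻¹ * y⁻¹ : P) : Q) =
                (u : Q) * (t : Q) * (u : Q)⁻¹ * (t : Q)⁻¹ := by
              have h4 : ∀ v : Q, v * ((s : P) : Q) = ((s : P) : Q) * v :=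
                fun v => Subgroup.mem_center_iff.mp hsc v
              have h5 : Commute (((s : P) : Q) ^ (-m)) ((u : Q)⁻¹) :=
                (Commute.zpow_right (h4 _ : Commute ((u : Q)⁻¹) ((s : P) : Q)) (-m)).symm
              rw [hydef]
              simp only [QuotientGroup.mk_mul, QuotientGroup.mk_inv, QuotientGroup.mk_zpow]
              calc (u : Q) * ((t : Q) * (s : Q) ^ (-m)) * (u : Q)⁻¹ * ((t : Q) * (s : Q) ^ (-m))⁻¹
                  = (u : Q) * (t : Q) * ((s : Q) ^ (-m) * (u : Q)⁻¹) *
                    ((t : Q) * (s : Q) ^ (-m))⁻¹ := by group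
                _ = (u : Q) * (t : Q) * (u : Q)⁻¹ * (t : Q)⁻¹ := by rw [h5.eq]; group
            rw [h3]; exact h2
          obtain ⟨j, hj⟩ := Subgroup.mem_zpowers_iff.mp h1
          -- w = ζ * s ^ j
          set w := u * y * u⁻¹ * y⁻¹ with hw
          have hζ : (s ^ j)⁻¹ * w ∈ zpowers z := by
            rw [← hmk, QuotientGroup.mk_mul, QuotientGroup.mk_inv, QuotientGroup.mk_zpow, hj]
            simp
          set ζ := (s ^ j)⁻¹ * w with hζdef
          have hwζ : w = s ^ j * ζ := by rw [hζdef]; group
          -- (w y)^p = 1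
          have h6 : (w * y) ^ p = 1 := by
            have : w * y = u * y * u⁻¹ := by rw [hw]; group
            rw [this, conj_pow, hy]; group
          -- w * y = ζ * (s^j * y)
          have h7 : w * y = (y * s ^ j) * (((s ^ j * y) * (y * s ^ j)⁻¹) * ζ) := by
            rw [hwζ]
            have hc1 := (hcen ζ hζ y).eq
            have hd : s ^ j * y * (y * s ^ j)⁻¹ ∈ zpowers z := by
              obtain ⟨c, hc, hce⟩ := hpowcomm j y
              rw [hce]
              have : y * s ^ j * c * (y * s ^ j)⁻¹ = c := by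
                rw [(hcen c hc (y * s ^ j)).eq]; group
              rw [this]; exact hc
            have hd1 := (hcen _ hd (y * s ^ j)).eq
            calc s ^ j * ζ * y = s ^ j * (ζ * y) := by group
              _ = s ^ j * (y * ζ) := by rw [hc1]
              _ = (s ^ j * y * (y * s ^ j)⁻¹) * (y * s ^ j) * ζ := by group
              _ = (y * s ^ j) * (s ^ j * y * (y * s ^ j)⁻¹) * ζ := by rw [hd1]
              _ = _ := by group
          have h8 : s ^ j * y * (y * s ^ j)⁻¹ * ζ ∈ zpowers z := by
            apply Subgroup.mul_mem _ _ hζ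
            obtain ⟨c, hc, hce⟩ := hpowcomm j y
            rw [hce]
            have : y * s ^ j * c * (y * s ^ j)⁻¹ = c := by
              rw [(hcen c hc (y * s ^ j)).eq]; group
            rw [this]; exact hc
          have h9 : (s ^ j) ^ p = 1 := by
            rw [h7, (hcen _ h8 (y * s ^ j)).mul_pow, hZpow _ h8, mul_one, hmulpow, hy, one_mul]
              at h6
            exact h6
          have h10 : (s ^ p) ^ j = 1 := by
            rw [← zpow_natCast, ← zpow_mul, mul_comm, zpow_mul, zpow_natCast]; exact h9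
          have h11 : (orderOf (s ^ p) : ℤ) ∣ j := orderOf_dvd_iff_zpow_eq_one.mpr h10
          have h12 : orderOf (s ^ p) = p := by
            have h13 : (s ^ p) ^ p = 1 := hZpow _ hspZ
            rcases (Nat.dvd_prime hp.out).mp (orderOf_dvd_of_pow_eq_one h13) with h | h
            · exact absurd (orderOf_eq_one_iff.mp h) hsp1
            · exact h
          rw [h12] at h11
          obtain ⟨i, rfl⟩ := h11
          rw [hwζ]
          apply Subgroup.mul_mem _ _ hζ
          rw [zpow_mul, zpow_natCast]
          exact Subgroup.zpow_mem _ hspZ i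

end Pool.Agent.Helper67.Coclass
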